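import Pool.Agent.Lib.MP_b5021c_nt.IfaceE2

/-!
# Board b5, chapter E2: row FAT (Fatou's lemma on circles)
-/

namespace Pool.Agent.B5.H52

open MeasureTheory Filter Topology

theorem fat : FatS := by
  intro C g E hE hC hpos hlim
  have hlt : ∀ n : ℕ, (1 : ℝ) / ((n : ℝ) + 2) < 1 := fun n => by
    rw [div_lt_one (by positivity)]; linarith [(Nat.cast_nonneg n : (0 : ℝ) ≤ n)]
  set t : ℕ → ℝ := fun n => 1 - 1 / ((n : ℝ) + 2) with ht
  have ht0 : ∀ n, 0 < t n := fun n => by have := hlt n; simp only [ht]; linarith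
  have ht1 : ∀ n, t n < 1 := fun n => by
    have : (0 : ℝ) < 1 / ((n : ℝ) + 2) := by positivity
    simp only [ht]; linarith
  have htl : Tendsto t atTop (𝓝[<] 1) := by
    apply tendsto_nhdsWithin_of_tendsto_nhds_of_eventually_within
    · have h1 : Tendsto (fun n : ℕ => (1 : ℝ) / ((n : ℝ) + 2)) atTop (𝓝 0) := by
        apply Filter.Tendsto.div_atTop tendsto_const_nhds
        exact tendsto_atTop_add_const_right _ _ tendsto_natCast_atTop_atTop
      have h2 := (tendsto_const_nhds (x := (1 : ℝ))).sub h1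
      simpa [ht] using h2
    · exact Eventually.of_forall fun n => ht1 n
  set F : ℕ → ℝ → ℝ := fun n θ => (C ((t n : ℂ) * circleMap 0 1 θ)).re with hF
  have hmem : ∀ n θ, ((t n : ℂ) * circleMap 0 1 θ) ∈ Metric.ball (0 : ℂ) 1 := by
    intro n θ
    rw [mem_ball_zero_iff, norm_mul, norm_circleMap_zero, Complex.norm_real, Real.norm_eq_abs,
      abs_of_pos (ht0 n), abs_one, mul_one]
    exact ht1 n
  have hFc : ∀ n, Continuous (F n) := by
    intro n
    apply Complex.continuous_re.comp
    apply hC.continuousOn.comp_continuous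
    · exact continuous_const.mul (continuous_circleMap 0 1)
    · exact hmem n
  have hF0 : ∀ n θ, 0 ≤ F n θ := by
    intro n θ
    apply hpos
    exact mem_ball_zero_iff.mp (hmem n θ)
  have hint : ∀ n, ∫ θ in (0 : ℝ)..2 * Real.pi, F n θ = 2 * Real.pi * (C 0).re := by
    intro n
    have h1 : DiffContOnCl ℂ C (Metric.ball 0 |t n|) := by
      apply DifferentiableOn.diffContOnCl
      apply hC.mono
      refine (Metric.closure_ball_subset_closedBall).trans ?_
      intro x hx
      rw [abs_of_pos (ht0 n)] at hx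
      rw [mem_ball_zero_iff]
      rw [mem_closedBall_zero_iff] at hx
      exact lt_of_le_of_lt hx (ht1 n)
    have h2 := h1.circleAverage
    have h4 : ∀ θ, (t n : ℂ) * circleMap 0 1 θ = circleMap 0 (t n) θ := by
      intro θ; simp [circleMap]
    have h3 : CircleIntegrable C 0 (t n) := by
      apply ContinuousOn.circleIntegrable'
      apply h1.continuousOn.mono
      rw [closure_ball _ (by rw [abs_of_pos (ht0 n)]; exact (ht0 n).ne')]
      exact Metric.sphere_subset_closedBall
    have h5 : ∫ θ in (0 : ℝ)..2 * Real.pi, F n θ =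
        (∫ θ in (0 : ℝ)..2 * Real.pi, C (circleMap 0 (t n) θ)).re := by
      have := Complex.reCLM.intervalIntegral_comp_comm (μ := volume) (a := 0) (b := 2 * Real.pi)
        (f := fun θ => C (circleMap 0 (t n) θ)) h3
      rw [← Complex.reCLM_apply, ← this]
      apply intervalIntegral.integral_congr
      intro θ _
      simp only [hF, h4, Complex.reCLM_apply]
    rw [h5]
    rw [Real.circleAverage_def] at h2
    have h6 : ∫ θ in (0 : ℝ)..2 * Real.pi, C (circleMap 0 (t n) θ) =
        ((2 * Real.pi : ℝ) : ℂ) * C 0 := by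
      rw [← h2, Complex.real_smul, ← mul_assoc, ← Complex.ofReal_mul,
        mul_inv_cancel₀ (by positivity), Complex.ofReal_one, one_mul]
    rw [h6, Complex.re_ofReal_mul]
  set μ : Measure ℝ := volume.restrict (Set.Ioc 0 (2 * Real.pi)) with hμ
  have hpi : (0 : ℝ) ≤ 2 * Real.pi := by positivity
  have hC0 : 0 ≤ (C 0).re := hpos 0 (by simp)
  have hlint : ∀ n, ∫⁻ θ, ENNReal.ofReal (F n θ) ∂μ = ENNReal.ofReal (2 * Real.pi * (C 0).re) := by
    intro n
    rw [← hint n, intervalIntegral.integral_of_le hpi,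
      ofReal_integral_eq_lintegral_ofReal]
    · exact ((hFc n).integrableOn_Icc (a := 0) (b := 2 * Real.pi)).mono_set Set.Ioc_subset_Icc_self
    · exact Eventually.of_forall fun θ => hF0 n θ
  have hae : ∀ᵐ θ ∂μ, Tendsto (fun n => F n θ) atTop (𝓝 (g (circleMap 0 1 θ))) := by
    have hc : (circleMap 0 1 ⁻¹' E).Countable :=
      Set.Countable.preimage_circleMap hE.countable 0 one_ne_zero
    have h0 : μ (circleMap 0 1 ⁻¹' E) = 0 := by
      have : volume (circleMap 0 1 ⁻¹' E) = 0 := hc.measure_zero _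
      exact Measure.restrict_apply_eq_zero' measurableSet_Ioc |>.mpr
        (measure_mono_null Set.inter_subset_left this)
    filter_upwards [measure_eq_zero_iff_ae_notMem.mp h0] with θ hθ
    have h1 := hlim (circleMap 0 1 θ) (by rw [norm_circleMap_zero, abs_one]) hθ
    exact h1.comp htl
  have hgm : AEStronglyMeasurable (fun θ => g (circleMap 0 1 θ)) μ :=
    aestronglyMeasurable_of_tendsto_ae atTop (fun n => (hFc n).aestronglyMeasurable) hae
  have hg0 : 0 ≤ᵐ[μ] fun θ => g (circleMap 0 1 θ) := by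
    filter_upwards [hae] with θ hθ
    exact ge_of_tendsto' hθ fun n => hF0 n θ
  have hle : ∫⁻ θ, ENNReal.ofReal (g (circleMap 0 1 θ)) ∂μ ≤
      ENNReal.ofReal (2 * Real.pi * (C 0).re) := by
    calc ∫⁻ θ, ENNReal.ofReal (g (circleMap 0 1 θ)) ∂μ
        = ∫⁻ θ, liminf (fun n => ENNReal.ofReal (F n θ)) atTop ∂μ := by
          apply lintegral_congr_ae
          filter_upwards [hae] with θ hθ
          exact ((ENNReal.tendsto_ofReal hθ).liminf_eq).symm
      _ ≤ liminf (fun n => ∫⁻ θ, ENNReal.ofReal (F n θ) ∂μ) atTop :=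
          lintegral_liminf_le fun n => (hFc n).measurable.ennreal_ofReal
      _ = ENNReal.ofReal (2 * Real.pi * (C 0).re) := by
          simp only [hlint, liminf_const]
  have hgi : Integrable (fun θ => g (circleMap 0 1 θ)) μ := by
    refine ⟨hgm, ?_⟩
    rw [hasFiniteIntegral_iff_ofReal hg0]
    exact lt_of_le_of_lt hle ENNReal.ofReal_lt_top
  constructor
  · rw [CircleIntegrable, intervalIntegrable_iff_integrableOn_Ioc_of_le hpi]
    exact hgi
  · rw [Real.circleAverage_def, intervalIntegral.integral_of_le hpi,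
      integral_eq_lintegral_of_nonneg_ae hg0 hgm]
    have h1 : (∫⁻ θ, ENNReal.ofReal (g (circleMap 0 1 θ)) ∂μ).toReal ≤ 2 * Real.pi * (C 0).re := by
      have := ENNReal.toReal_mono ENNReal.ofReal_ne_top hle
      rwa [ENNReal.toReal_ofReal (by positivity)] at this
    rw [smul_eq_mul]
    calc (2 * Real.pi)⁻¹ * (∫⁻ θ, ENNReal.ofReal (g (circleMap 0 1 θ)) ∂μ).toReal
        ≤ (2 * Real.pi)⁻¹ * (2 * Real.pi * (C 0).re) := by gcongr
      _ = (C 0).re := by rw [← mul_assoc, inv_mul_cancel₀ (by positivity), one_mul]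

end Pool.Agent.B5.H52
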