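import Pool.Agent.Lib.MP_b5021c_nt.IfaceE5
import Pool.Agent.Lib.MP_b5021c_nt.B.H24.Lsp

/-!
# Board b5, row E5_LP5: the loads in class `P`, complex elements (PaperE5.md, E5.4)
-/

namespace Pool.Agent.B5.H52

open scoped LaurentPolynomial
open Polynomial
open Pool.Agent.MP_b5021c_nt (Eis nz)
open Pool.Agent.B5.H40 (uT uT_val norm_evR add_load)
open Pool.Agent.B5.H24 (shiftV shiftP mnB)
open Pool.Agent.B5.H16 (lsv_M)

/-- A load `u T^(n - m + k)` times `F`. -/
theorem load_mul (n m : ℤ) (f : Eis[X]) (v : Eisˣ) (k : ℕ) :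
    ((uT v (n - m + k) : (RO Eis)ˣ) : RO Eis) * (LaurentPolynomial.T m * toLaurent f) =
    LaurentPolynomial.T n * toLaurent (X ^ k * (C (v : Eis) * f)) := by
  have h1 := add_load (0 : Eis[X]) f n m v k
  rw [map_zero, mul_zero, zero_add, zero_add] at h1
  rw [h1]
  congr 2
  ring

/-- The closed coefficient. -/
theorem load_add (n m : ℤ) (q f : Eis[X]) (v : Eisˣ) (k : ℕ) :
    LaurentPolynomial.T n * toLaurent q +
      ((uT v (n - m + k) : (RO Eis)ˣ) : RO Eis) * (LaurentPolynomial.T m * toLaurent f) =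
    LaurentPolynomial.T n * toLaurent (q + X ^ k * (C (v : Eis) * f)) := by
  rw [load_mul, ← mul_add, ← map_add]

/-- Transport of the outcome. -/
theorem gp_of (θ t θ' : ℝ) (n m : ℤ) (q f : Eis[X]) (v : Eisˣ) (k : ℕ) (h1 : θ / 3 ≤ θ')
    (h2 : θ' ≤ t) (h3 : ClassP θ' (toLaurent (q + X ^ k * (C (v : Eis) * f)))) :
    Gp θ t (LaurentPolynomial.T n * toLaurent q) (LaurentPolynomial.T m * toLaurent f)
      (uT v (n - m + k)) := by
  refine ⟨θ', h1, h2, ?_⟩
  rw [load_add]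
  exact shiftP _ _ _ h3

/-- Type A is invariant under multiplication by `T^n`. -/
theorem shiftA (N' : ℝ) (n : ℤ) (Q V : RO Eis) (h : TypA N' Q V) :
    TypA N' (LaurentPolynomial.T n * Q) (LaurentPolynomial.T n * V) := by
  obtain ⟨m, q, e, rfl, rfl, h1, h2, h3⟩ := h
  refine ⟨n + m, q, e, ?_, ?_, h1, h2, h3⟩
  · rw [LaurentPolynomial.T_add, mul_assoc]
  · rw [← mul_assoc, ← LaurentPolynomial.T_add, add_assoc]

/-- Value of a coefficient. -/
theorem evR_Tp (z : Circle) (n : ℤ) (p : Eis[X]) :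
    evR z (LaurentPolynomial.T n * toLaurent p) =
      (((Circle.toUnits z) ^ n : ℂˣ) : ℂ) * (p.map Eis.emb).eval (z : ℂ) := by
  rw [map_mul]
  unfold evR
  rw [LaurentPolynomial.eval₂_T, LaurentPolynomial.eval₂_toLaurent, eval_map]
  rfl

theorem norm_unitpow (z : Circle) (n : ℤ) : ‖(((Circle.toUnits z) ^ n : ℂˣ) : ℂ)‖ = 1 := by
  rw [Units.val_zpow_eq_zpow_val, norm_zpow]
  have : ‖((Circle.toUnits z : ℂˣ) : ℂ)‖ = 1 := Circle.norm_coe z
  rw [this, one_zpow]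

/-- Real and imaginary part divided by `θ`. -/
theorem decomp (a : ℂ) (θ : ℝ) (hθ : θ ≠ 0) :
    a = (θ : ℂ) * (((a.re / θ : ℝ) : ℂ) + ((a.im / θ : ℝ) : ℂ) * Complex.I) := by
  apply Complex.ext
  · simp only [Complex.mul_re, Complex.add_re, Complex.ofReal_re, Complex.ofReal_im,
      Complex.I_re, Complex.I_im, mul_zero, zero_mul, sub_zero, Complex.add_im, Complex.mul_im,
      mul_one, add_zero, zero_add]
    field_simp
  · simp only [Complex.mul_re, Complex.add_re, Complex.ofReal_re, Complex.ofReal_im,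
      Complex.I_re, Complex.I_im, mul_zero, zero_mul, sub_zero, Complex.add_im, Complex.mul_im,
      mul_one, add_zero, zero_add]
    field_simp

/-- The second best unit. -/
theorem second (a b w : ℂ) (h : a = w * b) (hw : ‖w‖ = 1) (hr : w.re = 1 / 2)
    (hb : 1 / 2 * ‖a‖ ≤ b.re) :
    a.re / 2 + Real.sqrt 3 / 2 * |a.im| ≤ b.re := by
  have hw2 : w.re * w.re + w.im * w.im = 1 := by
    have h1 := Complex.normSq_eq_norm_sq w
    rw [hw, Complex.normSq_apply] at h1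
    linarith
  have him : w.im * w.im = 3 / 4 := by
    rw [hr] at hw2
    linarith
  have hare : a.re = w.re * b.re - w.im * b.im := by rw [h, Complex.mul_re]
  have haim : a.im = w.re * b.im + w.im * b.re := by rw [h, Complex.mul_im]
  have hbre : b.re = a.re / 2 + w.im * a.im := by
    rw [hare, haim, hr]
    linear_combination (-b.re) * him
  have hna : a.re ≤ ‖a‖ := Complex.re_le_norm a
  have ht : 0 ≤ w.im * a.im := by linarith
  have hs : (Real.sqrt 3 / 2 * |a.im|) ^ 2 ≤ (w.im * a.im) ^ 2 := by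
    have h3 : Real.sqrt 3 ^ 2 = 3 := Real.sq_sqrt (by norm_num)
    have h4 : |a.im| ^ 2 = a.im ^ 2 := sq_abs _
    have h5 : (w.im * a.im) ^ 2 = 3 / 4 * a.im ^ 2 := by
      linear_combination (a.im ^ 2) * him
    rw [h5, mul_pow, div_pow, h3, h4]
    linarith
  have h6 := (pow_le_pow_iff_left₀ (by positivity) ht two_ne_zero).mp hs
  linarith

/-- Row E5_LP5. -/
theorem lp5 (hPda : PdaS) (hPv : Pv5S) (hLb : Lb5S) (hLc : Lc5S) (hLa : La5S) (hKc : Kc5S)
    (hCa : Ca5S) (hB : BstS) (hM : MepS) (hE : EvRS) (hA6 : A6S) : Lp5S := by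
  intro θ Q F hθ hQ hF hnz hle hne
  obtain ⟨n, m, q, f, s, r, T, c, rfl, rfl, hd⟩ := hPda θ Q F hQ hF hnz hle hne
  have hθ0 : 0 < θ := by linarith
  have hθn : θ ≠ 0 := hθ0.ne'
  have hθi : 1 / θ ≤ 1 / 1000000 := one_div_le_one_div_of_le (by norm_num) hθ
  have hθi0 : 0 < 1 / θ := by positivity
  have h2θ : 2 / θ = 2 * (1 / θ) := by ring
  have h7θ : 7 / θ = 7 * (1 / θ) := by ring
  have hs3 : (1.732 : ℝ) ≤ Real.sqrt 3 := by
    apply Real.le_sqrt_of_sq_le; norm_num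
  have hs3' : Real.sqrt 3 ≤ 1.7321 := by
    rw [Real.sqrt_le_left (by norm_num)]; norm_num
  have hs33 : Real.sqrt 3 ^ 2 = 3 := Real.sq_sqrt (by norm_num)
  -- the constant coefficient of `f`
  have hf0 := hd.f0
  have hf1 : 1 ≤ ‖(Coef.emb (f.coeff 0) : ℂ)‖ := Coef.one_le _ hf0
  have hMF := lsv_M hE hA6 m f hf0
  have hs0 : ‖s.eval 0‖ = 1 := by
    have h1 : (q.map Eis.emb).eval 0 = s.eval 0 := by rw [hd.qs]; simp
    rw [← h1, ← coeff_zero_eq_eval_zero, coeff_map]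
    exact hd.q0
  have hfe : (Coef.emb (f.coeff 0) : ℂ) = c * s.eval 0 + r.eval 0 := by
    have h1 : (f.map Eis.emb).eval 0 = c * s.eval 0 + r.eval 0 := by rw [hd.fs]; simp
    rw [← h1, ← coeff_zero_eq_eval_zero, coeff_map]
    rfl
  have hr0 : ‖r.eval 0‖ ≤ 1 := by
    have h3 := hd.h0
    rwa [hs0] at h3
  have hfc : ‖c‖ - 1 ≤ ‖(Coef.emb (f.coeff 0) : ℂ)‖ := by
    have h1 : ‖c * s.eval 0‖ ≤ ‖(Coef.emb (f.coeff 0) : ℂ)‖ + ‖r.eval 0‖ := by
      have h2 : c * s.eval 0 = (Coef.emb (f.coeff 0) : ℂ) - r.eval 0 := by rw [hfe]; ring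
      rw [h2]
      exact norm_sub_le _ _
    rw [norm_mul, hs0, mul_one] at h1
    linarith
  have hcT : ‖c‖ ≤ θ := by
    have h1 := hd.cT
    linarith
  have hvc : ∀ x : Eisˣ, ‖Eis.emb (x : Eis) * c‖ = ‖c‖ := by
    intro x
    rw [norm_mul, Eis.norm_emb_unit x.isUnit, one_mul]
  have hnq : nz (q.map (Coef.emb : Eis →+* ℂ)) = 1 := by
    change ((q.map Eis.emb).roots.filter (fun z => ‖z‖ < 1)).card = 1
    rw [hd.root, Multiset.card_singleton]
  have hpw : ∀ g : Eis[X], (X : Eis[X]) ^ 1 * g = X * g := by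
    intro g
    rw [pow_one]
  rcases le_or_gt (6 / 10 * θ) ‖c‖ with hc | hc
  · -- very heavy
    left
    obtain ⟨u, v, w, hu, hv, huv, hw1, hw2, h1, h2⟩ := hB (c * (starRingEnd ℂ) T ^ 2)
    have hnn : ‖c * (starRingEnd ℂ) T ^ 2‖ = ‖c‖ * θ ^ 2 := by
      rw [norm_mul, norm_pow, Complex.norm_conj, hd.nT]
    rw [hnn] at h1
    have hd' := hPv θ q f s r T c hu.unit hd
    obtain ⟨θ', h3, h4, h5⟩ := hLc θ q _ s _ T _ hθ hd' (by rw [hvc]; exact hc) (by
      rw [hvc]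
      have h6 : Eis.emb ((hu.unit : Eisˣ) : Eis) * c * (starRingEnd ℂ) T ^ 2 =
        Eis.emb u * (c * (starRingEnd ℂ) T ^ 2) := by
        change Eis.emb u * c * _ = _
        ring
      rw [h6]
      exact h1)
    refine ⟨uT hu.unit (n - m + (2 : ℕ)), gp_of θ _ θ' n m q f hu.unit 2 h3 h4 h5, ?_, ?_⟩
    · intro hcar
      rw [load_mul] at hcar
      have h6 := hKc θ q _ s _ T _ hθ hd' (by
        intro z hz
        obtain ⟨x, rfl⟩ : ∃ x : Circle, (x : ℂ) = z :=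
          ⟨⟨z, mem_sphere_zero_iff_norm.mpr hz⟩, rfl⟩
        have h7 := (hCa (evR x (LaurentPolynomial.T n * toLaurent q))
          (evR x (LaurentPolynomial.T n *
            toLaurent (X ^ 2 * (C ((hu.unit : Eisˣ) : Eis) * f)))) (by
            intro y y' hy hy'
            have h8 := hcar x y y' hy hy'
            rw [map_add] at h8
            exact h8)).2
        rw [norm_evR, norm_evR, evR_Tp, evR_Tp] at h7
        have ht := norm_unitpow x n
        set t : ℂ := (((Circle.toUnits x) ^ n : ℂˣ) : ℂ) with htd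
        have htt : t * (starRingEnd ℂ) t = 1 := by
          rw [Complex.mul_conj, Complex.normSq_eq_norm_sq, ht]
          norm_num
        have h9 : t * (map Eis.emb (X ^ 2 * (C ((hu.unit : Eisˣ) : Eis) * f))).eval (x : ℂ) *
            (starRingEnd ℂ) (t * (q.map Eis.emb).eval (x : ℂ)) =
            (x : ℂ) ^ 2 * (map Eis.emb (C ((hu.unit : Eisˣ) : Eis) * f)).eval (x : ℂ) *
              (starRingEnd ℂ) ((q.map Eis.emb).eval (x : ℂ)) := by
          rw [Polynomial.map_mul, Polynomial.map_pow, map_X, eval_mul, eval_pow, eval_X, map_mul]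
          linear_combination ((x : ℂ) ^ 2 *
            (map Eis.emb (C ((hu.unit : Eisˣ) : Eis) * f)).eval (x : ℂ) *
              (starRingEnd ℂ) ((q.map Eis.emb).eval (x : ℂ))) * htt
        rw [h9] at h7
        have h10 : ‖(map (Coef.emb : Eis →+* ℂ)
            (X ^ 2 * (C ((hu.unit : Eisˣ) : Eis) * f))).eval (x : ℂ)‖ =
            ‖(map Eis.emb (C ((hu.unit : Eisˣ) : Eis) * f)).eval (x : ℂ)‖ := by
          rw [Polynomial.map_mul, Polynomial.map_pow, map_X, eval_mul, eval_pow, eval_X, norm_mul,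
            norm_pow, Circle.norm_coe, one_pow, one_mul]
          rfl
        rw [h10] at h7
        exact h7)
      rw [hvc] at h6
      linarith
    · refine ⟨n, q, X * (C ((hu.unit : Eisˣ) : Eis) * f), rfl, ?_, hd.q0, hnq, ?_⟩
      · rw [load_mul]
        congr 2
        ring
      · rw [mul_coeff_zero, coeff_X_zero, zero_mul, map_zero, norm_zero]
  -- the units for loads of type B
  obtain ⟨u, v, w, hu, hv, huv, hw1, hw2, h1, h2⟩ := hB (c * (starRingEnd ℂ) T)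
  have hnn : ‖c * (starRingEnd ℂ) T‖ = ‖c‖ * θ := by
    rw [norm_mul, Complex.norm_conj, hd.nT]
  rw [hnn] at h1 h2
  have hcθ : 0 ≤ ‖c‖ * θ := by positivity
  obtain ⟨a, ha⟩ : ∃ a, a = Eis.emb u * (c * (starRingEnd ℂ) T) := ⟨_, rfl⟩
  obtain ⟨b, hb⟩ : ∃ b, b = Eis.emb v * (c * (starRingEnd ℂ) T) := ⟨_, rfl⟩
  rw [← ha] at h1
  rw [← hb] at h2
  have hna : ‖a‖ = ‖c‖ * θ := by
    rw [ha, norm_mul, Eis.norm_emb_unit hu, one_mul, hnn]
  have hab : a = Eis.emb w * b := by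
    rw [ha, hb, huv, map_mul]
    ring
  have hsec := second a b (Eis.emb w) hab hw1 hw2 (by rw [hna]; exact h2)
  have hdu := hPv θ q f s r T c hu.unit hd
  have hdv := hPv θ q f s r T c hv.unit hd
  have hau : Eis.emb ((hu.unit : Eisˣ) : Eis) * c * (starRingEnd ℂ) T = a := by
    rw [ha]
    change Eis.emb u * c * _ = _
    ring
  have hbv : Eis.emb ((hv.unit : Eisˣ) : Eis) * c * (starRingEnd ℂ) T = b := by
    rw [hb]
    change Eis.emb v * c * _ = _
    ring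
  obtain ⟨x, hx⟩ : ∃ x, x = a.re / θ := ⟨_, rfl⟩
  obtain ⟨y, hy⟩ : ∃ y, y = a.im / θ := ⟨_, rfl⟩
  obtain ⟨x2, hx2⟩ : ∃ x, x = b.re / θ := ⟨_, rfl⟩
  obtain ⟨y2, hy2⟩ : ∃ y, y = b.im / θ := ⟨_, rfl⟩
  have hax : a.re = θ * x := by rw [hx]; field_simp
  have hay : a.im = θ * y := by rw [hy]; field_simp
  have hbx : b.re = θ * x2 := by rw [hx2]; field_simp
  have heu : Eis.emb ((hu.unit : Eisˣ) : Eis) * c * (starRingEnd ℂ) T =
      (θ : ℂ) * ((x : ℂ) + (y : ℂ) * Complex.I) := by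
    rw [hau, hx, hy]
    exact decomp a θ hθn
  have hev : Eis.emb ((hv.unit : Eisˣ) : Eis) * c * (starRingEnd ℂ) T =
      (θ : ℂ) * ((x2 : ℂ) + (y2 : ℂ) * Complex.I) := by
    rw [hbv, hx2, hy2]
    exact decomp b θ hθn
  have hxc : Real.sqrt 3 / 2 * ‖c‖ ≤ x := by
    rw [hax] at h1
    have h3 : Real.sqrt 3 / 2 * ‖c‖ * θ ≤ x * θ := by linarith
    exact le_of_mul_le_mul_right h3 hθ0
  have hx2c : 1 / 2 * ‖c‖ ≤ x2 := by
    rw [hbx] at h2
    have h3 : 1 / 2 * ‖c‖ * θ ≤ x2 * θ := by linarith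
    exact le_of_mul_le_mul_right h3 hθ0
  have hxx : x / 2 + Real.sqrt 3 / 2 * |y| ≤ x2 := by
    rw [hax, hay, hbx, abs_mul, abs_of_pos hθ0] at hsec
    have h3 : (x / 2 + Real.sqrt 3 / 2 * |y|) * θ ≤ x2 * θ := by linarith
    exact le_of_mul_le_mul_right h3 hθ0
  have hxy : ‖c‖ ^ 2 = x ^ 2 + y ^ 2 := by
    have h3 := Complex.normSq_eq_norm_sq a
    rw [Complex.normSq_apply, hna, hax, hay] at h3
    have h4 : ‖c‖ ^ 2 * θ ^ 2 = (x ^ 2 + y ^ 2) * θ ^ 2 := by linear_combination -h3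
    exact mul_right_cancel₀ (pow_ne_zero 2 hθn) h4
  have hc0 : 0 ≤ ‖c‖ := norm_nonneg _
  have hx0 : 0 ≤ x := le_trans (by positivity) hxc
  have hyx : Real.sqrt 3 * |y| ≤ x := by
    have h3 : (Real.sqrt 3 * |y|) ^ 2 ≤ x ^ 2 := by
      rw [mul_pow, hs33, sq_abs]
      have h4 : (Real.sqrt 3 / 2 * ‖c‖) ^ 2 ≤ x ^ 2 :=
        pow_le_pow_left₀ (by positivity) hxc 2
      rw [mul_pow, div_pow, hs33, hxy] at h4
      linarith
    exact (pow_le_pow_iff_left₀ (by positivity) hx0 two_ne_zero).mp h3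
  rcases le_or_gt (θ / 10) ‖c‖ with hc1 | hc1
  · -- heavy
    right; left
    refine ⟨by linarith, ?_⟩
    obtain ⟨θ', h3, h4, h5⟩ := (hLb θ q _ s _ T _ x y hθ hdu heu).2.2 (by rw [hvc]; exact hc1)
      (by rw [hvc]; exact hc.le) (by rw [hvc]; exact hxc)
    rw [← hpw] at h5
    exact ⟨uT hu.unit (n - m + (1 : ℕ)), gp_of θ _ θ' n m q f hu.unit 1 h3 h4 h5⟩
  rcases lt_or_ge ‖c‖ (72 / 100) with hc2 | hc2
  · -- type A
    right; right; right; right
    have hfu : IsUnit (f.coeff 0) := by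
      by_contra h3
      have h4 := Eis.sqrt3_le hf0 h3
      have h5 : ‖(Coef.emb (f.coeff 0) : ℂ)‖ ≤ ‖c‖ + 1 := by
        rw [hfe]
        refine (norm_add_le _ _).trans ?_
        rw [norm_mul, hs0, mul_one]
        linarith
      change ‖Eis.emb (f.coeff 0)‖ ≤ _ at h5
      linarith
    have hqu : IsUnit (q.coeff 0) := Eis.isUnit_iff_emb.mpr hd.q0
    obtain ⟨v1, hv1⟩ : ∃ v1 : Eisˣ, v1 = -(hqu.unit * hfu.unit⁻¹) := ⟨_, rfl⟩
    have h3 : q.coeff 0 + (C (v1 : Eis) * f).coeff 0 = 0 := by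
      rw [coeff_C_mul, hv1, Units.val_neg, Units.val_mul]
      have h4 : ((hfu.unit⁻¹ : Eisˣ) : Eis) * f.coeff 0 = 1 := hfu.val_inv_mul
      have h5 : ((hqu.unit : Eisˣ) : Eis) = q.coeff 0 := rfl
      rw [h5]
      linear_combination (-(q.coeff 0)) * h4
    have hd1 := hPv θ q f s r T c v1 hd
    obtain ⟨N', h4, h5, h6⟩ := hLa θ q _ s _ T _ hθ hd1 h3
    have h7 := hd1.h1
    rw [hs0] at h5 h7
    rw [hvc] at h5
    refine ⟨uT v1 (n - m + (0 : ℕ)), N', ?_, ?_⟩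
    · have h8 : ‖c‖ * θ ≤ 72 / 100 * θ := mul_le_mul_of_nonneg_right hc2.le hθ0.le
      linarith
    · rw [load_add, pow_zero, one_mul]
      exact shiftA _ _ _ _ h6
  rcases le_or_gt (x + Real.sqrt 3 * |y|) (1 + 7 / θ) with hc3 | hc3
  · -- window
    right; right; right; left
    refine ⟨uT hu.unit (n - m + (1 : ℕ)), x, y, n, q, _, s, _, T, _, rfl, ?_, hdu, heu, hyx, ?_, hc3⟩
    · rw [load_mul, pow_one]
    · rw [hvc]
      exact hc2
  · -- a pair of loads of type B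
    right; right; left
    have hx2p : 1 / 2 + 7 / 2 * (1 / θ) ≤ x2 := by
      rw [h7θ] at hc3
      linarith
    refine ⟨uT hu.unit (n - m + (1 : ℕ)), uT hv.unit (n - m + (1 : ℕ)), ⟨w, ?_, hw1, hw2⟩, ?_,
      ?_, ?_⟩
    · change LaurentPolynomial.C u * LaurentPolynomial.T (n - m + (1 : ℕ)) =
        LaurentPolynomial.C w * (LaurentPolynomial.C v * LaurentPolynomial.T (n - m + (1 : ℕ)))
      rw [huv, map_mul, mul_assoc]
    · have h3 := mnB hE hM n m θ q f s r T c hd hu.unit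
      rw [Nat.cast_one, h3, div_le_iff₀ hθ0]
      linarith
    · rcases le_or_gt ‖c‖ (12 / 10) with hc4 | hc4
      · obtain ⟨θ', h3, h4, -, h5⟩ := (hLb θ q _ s _ T _ x y hθ hdu heu).1
          (by rw [hvc]; exact hc4)
        rw [← hpw] at h5
        refine gp_of θ _ θ' n m q f hu.unit 1 h3 ?_ h5
        have h6 : Real.sqrt 3 / 2 * (72 / 100) ≤ Real.sqrt 3 / 2 * ‖c‖ :=
          mul_le_mul_of_nonneg_left hc2 (by positivity)
        rw [h2θ] at h4
        linarith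
      · obtain ⟨θ', h3, h4, h5⟩ := (hLb θ q _ s _ T _ x y hθ hdu heu).2.1
          (by rw [hvc]; exact hc4.le) (by rw [hvc]; exact hc1.le)
        rw [← hpw] at h5
        refine gp_of θ _ θ' n m q f hu.unit 1 h3 ?_ h5
        have h6 := h4 (1 / 2) le_rfl (by norm_num) (by
          rw [hvc]
          have h7 : 1 / 2 * ‖c‖ ≤ Real.sqrt 3 / 2 * ‖c‖ :=
            mul_le_mul_of_nonneg_right (by linarith) hc0
          linarith)
        have h7 : (12 / 10 : ℝ) ≤ min ‖Eis.emb ((hu.unit : Eisˣ) : Eis) * c‖ 2 := by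
          rw [hvc]
          exact le_min hc4.le (by norm_num)
        linarith
    · rcases le_or_gt ‖c‖ (12 / 10) with hc4 | hc4
      · obtain ⟨θ', h3, h4, -, h5⟩ := (hLb θ q _ s _ T _ x2 y2 hθ hdv hev).1
          (by rw [hvc]; exact hc4)
        rw [← hpw] at h5
        refine gp_of θ _ θ' n m q f hv.unit 1 h3 ?_ h5
        rw [h2θ] at h4
        linarith
      · obtain ⟨θ', h3, h4, h5⟩ := (hLb θ q _ s _ T _ x2 y2 hθ hdv hev).2.1
          (by rw [hvc]; exact hc4.le) (by rw [hvc]; exact hc1.le)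
        rw [← hpw] at h5
        refine gp_of θ _ θ' n m q f hv.unit 1 h3 ?_ h5
        have h6 := h4 (1 / 2) le_rfl (by norm_num) (by
          rw [hvc]
          exact hx2c)
        have h7 : (12 / 10 : ℝ) ≤ min ‖Eis.emb ((hv.unit : Eisˣ) : Eis) * c‖ 2 := by
          rw [hvc]
          exact le_min hc4.le (by norm_num)
        linarith

end Pool.Agent.B5.H52
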