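import Pool.Agent.Lib.MP_b5021c_nt.E.H52.Cyc
import Pool.Agent.Lib.MP_b5021c_nt.B.H59.CstA

/-!
# MP_b5021c_nt, stage 3, row AM_NF: the normal form at a cycle (PaperAM.md)
-/

set_option linter.unusedSectionVars false

namespace Pool.Agent.B5.H52

open Pool.Agent.B5

/-- Two-step induction around a cycle. -/
theorem two_step {k : ℕ} {Q : ZMod (k + 3) → Prop} (i : ZMod (k + 3)) (h0 : Q i)
    (h1 : Q (i + 1)) (hs : ∀ j, Q (j - 1) → Q (j + 1)) : ∀ j, Q j := by
  have h : ∀ n : ℕ, Q (i + (n : ℕ)) ∧ Q (i + ((n + 1 : ℕ) : ZMod (k + 3))) := by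
    intro n
    induction n with
    | zero =>
      rw [Nat.cast_zero, add_zero, zero_add, Nat.cast_one]
      exact ⟨h0, h1⟩
    | succ n ih =>
      refine ⟨ih.2, ?_⟩
      have h2 := hs (i + ((n + 1 : ℕ) : ZMod (k + 3))) (by
        have h3 : i + ((n + 1 : ℕ) : ZMod (k + 3)) - 1 = i + ((n : ℕ) : ZMod (k + 3)) := by
          push_cast; ring
        rw [h3]
        exact ih.1)
      have h4 : i + ((n + 1 : ℕ) : ZMod (k + 3)) + 1 = i + ((n + 1 + 1 : ℕ) : ZMod (k + 3)) := by
        push_cast; ring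
      rwa [h4] at h2
  intro j
  have h2 := (h (j - i).val).1
  rwa [ZMod.natCast_zmod_val, add_sub_cancel] at h2

section

variable {O : Type} [CommRing O] [IsDomain O] [IsPrincipalIdealRing O] [Coef O] {P : Type}
  [Fintype P] [DecidableEq P] {L : Type} [AddCommGroup L] [Module.Free ℤ L] [Module.Finite ℤ L]
  {phi : L →+ (P → ℤ)} {D : AO O L} {eta : L → (RO O)ˣ} {k : ℕ} {Z : ZMod (k + 3) → L}
  {mu : ZMod (k + 3) → L →+ ℤ}

theorem ne1 (i : ZMod (k + 3)) : i + 1 ≠ i := by
  intro h
  have h3 : ((1 : ℕ) : ZMod (k + 3)) = ((0 : ℕ) : ZMod (k + 3)) := by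
    push_cast
    linear_combination h
  have := cast_inj k (by omega) (by omega) h3
  omega

theorem ne2 (i : ZMod (k + 3)) : i + 1 ≠ i - 1 := by
  intro h
  have h3 : ((2 : ℕ) : ZMod (k + 3)) = ((0 : ℕ) : ZMod (k + 3)) := by
    push_cast
    linear_combination h
  have := cast_inj k (by omega) (by omega) h3
  omega

theorem ne3 (i : ZMod (k + 3)) : i - 1 ≠ i := by
  intro h
  apply ne1 (i - 1)
  rw [sub_add_cancel, h]

theorem cyc_self (hC : Cyc phi D eta k Z mu) (i : ZMod (k + 3)) : mu i (Z i) = 0 :=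
  (hC.ker i _).1 (H07.mem_US _ _ _)

theorem cyc_ray (hC : Cyc phi D eta k Z mu) (i : ZMod (k + 3)) : Ray D (Z i) := (hC.mtl i).r0

open Classical in
/-- The value of `mu i` on a ray. -/
theorem cyc_val (hC : Cyc phi D eta k Z mu) (i : ZMod (k + 3)) (R : L) (hR : Ray D R) :
    mu i R = (if R = Z (i + 1) then 1 else 0) - (if R = Z (i - 1) then 1 else 0) := by
  by_cases h1 : R = Z (i + 1)
  · have h2 : R ≠ Z (i - 1) := by
      rw [h1]
      exact fun h => ne2 i (hC.inj h)
    rw [if_pos h1, if_neg h2, h1, hC.nxt]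
    rfl
  · by_cases h2 : R = Z (i - 1)
    · rw [if_neg h1, if_pos h2, h2, hC.prv]
      rfl
    · rw [if_neg h1, if_neg h2, hC.oth i R hR h1 h2]
      rfl

theorem cyc_valZ (hC : Cyc phi D eta k Z mu) (i j : ZMod (k + 3)) :
    mu i (Z j) = (if j = i + 1 then 1 else 0) - (if j = i - 1 then 1 else 0) := by
  rw [cyc_val hC i _ (cyc_ray hC j)]
  simp only [hC.inj.eq_iff]

/-- A port of a ray. -/
theorem exists_port (hD : DD phi D) {R : L} (hR : Ray D R) : ∃ p, phi R p = 1 := by
  by_contra hcon
  push Not at hcon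
  apply hR.2.1
  apply hD.inj
  rw [map_zero]
  funext i
  exact (hD.bin R hR.1 i).resolve_right (hcon i)

/-- Multiplicities of the rays of the cycle. -/
theorem mult (hD : DD phi D) (hC : Cyc phi D eta k Z mu) (x : L)
    (hx : x ∈ AddSubmonoid.closure {b | Ray D b}) :
    ∃ w : ZMod (k + 3) → ℤ, (∀ j, 0 ≤ w j) ∧ (∀ j, mu j x = w (j + 1) - w (j - 1)) ∧
      (∀ j p, w j * phi (Z j) p ≤ phi x p) := by
  classical
  induction hx using AddSubmonoid.closure_induction with
  | mem R hR =>
    have hR' : Ray D R := hR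
    refine ⟨fun j => if R = Z j then 1 else 0, fun j => ?_, fun j => ?_, fun j p => ?_⟩
    · dsimp only
      split_ifs <;> omega
    · exact cyc_val hC j R hR'
    · dsimp only
      split_ifs with h
      · rw [one_mul, h]
      · rw [zero_mul]
        rcases hD.bin R hR'.1 p with h0 | h0 <;> omega
  | zero =>
    refine ⟨fun _ => 0, fun j => le_rfl, fun j => ?_, fun j p => ?_⟩
    · rw [map_zero, sub_zero]
    · rw [map_zero, zero_mul]
      rfl
  | add x y _ _ hx hy =>
    obtain ⟨w, h1, h2, h3⟩ := hx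
    obtain ⟨w', h1', h2', h3'⟩ := hy
    refine ⟨fun j => w j + w' j, fun j => add_nonneg (h1 j) (h1' j), fun j => ?_, fun j p => ?_⟩
    · rw [map_add, h2, h2']
      ring
    · rw [map_add, Pi.add_apply, add_mul]
      exact add_le_add (h3 j p) (h3' j p)

/-- The numbers `c j` of an exponent which is disjoint from `Z i` and not killed by `mu i`. -/
theorem numbers (hD : DD phi D) (hR : RaySpanS) (hTh : Thin (supp D))
    (hC : Cyc phi D eta k Z mu) {i : ZMod (k + 3)} {a : L} (ha : a ∈ supp D) (hmu : mu i a ≠ 0)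
    (hdis : ∀ p, phi a p = 0 ∨ phi (Z i) p = 0) :
    ∃ c : ZMod (k + 3) → ℤ, (∀ j, c j = 0 ∨ c j = 1) ∧ c i = 0 ∧
      (∀ j, mu j a = c (j + 1) - c (j - 1)) ∧
      ∀ j p, c j = 1 → phi (Z j) p = 1 → phi a p = 1 := by
  have ha0 : a ≠ 0 := by
    rintro rfl
    exact hmu (map_zero _)
  obtain ⟨lam, hlam, -⟩ := hD.st.2
  obtain ⟨n, hn, hmem⟩ := (hR O L D ⟨lam, hlam⟩ hTh).1 a ha ha0
  obtain ⟨w, hw0, hw1, hw2⟩ := mult hD hC _ hmem
  have hn' : (0 : ℤ) < n := by exact_mod_cast hn
  have hmun : ∀ j, (n : ℤ) * mu j a = w (j + 1) - w (j - 1) := by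
    intro j
    rw [← hw1 j, map_nsmul, nsmul_eq_mul]
  have hphin : ∀ j p, w j * phi (Z j) p ≤ n * phi a p := by
    intro j p
    have := hw2 j p
    rw [map_nsmul, Pi.smul_apply, nsmul_eq_mul] at this
    exact this
  have hwn : ∀ j, w j ≤ n := by
    intro j
    obtain ⟨p, hp⟩ := exists_port hD (cyc_ray hC j)
    have h1 := hphin j p
    rw [hp, mul_one] at h1
    rcases hD.bin a ha p with h | h
    · rw [h, mul_zero] at h1
      linarith
    · rw [h, mul_one] at h1
      exact h1
  have hwi : w i = 0 := by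
    obtain ⟨p, hp⟩ := exists_port hD (cyc_ray hC i)
    have h1 := hphin i p
    have h2 : phi a p = 0 := (hdis p).resolve_right (by rw [hp]; decide)
    rw [hp, mul_one, h2, mul_zero] at h1
    exact le_antisymm h1 (hw0 i)
  have hval : mu i a = 1 ∨ mu i a = -1 := (hC.val i a ha).resolve_left hmu
  have hwall : ∀ j, w j = 0 ∨ w j = n := by
    refine two_step i (Or.inl hwi) ?_ ?_
    · have h1 := hmun i
      have h2 := hw0 (i + 1)
      have h3 := hw0 (i - 1)
      have h4 := hwn (i + 1)
      have h5 := hwn (i - 1)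
      rcases hval with h | h
      · rw [h, mul_one] at h1
        right; omega
      · rw [h] at h1
        left; omega
    · intro j hj
      have h1 := hmun j
      have h2 := hw0 (j + 1)
      have h4 := hwn (j + 1)
      rcases hC.val j a ha with h | h | h
      · rw [h, mul_zero] at h1
        rcases hj with hj | hj
        · left; omega
        · right; omega
      · rw [h, mul_one] at h1
        rcases hj with hj | hj
        · right; omega
        · omega
      · rw [h] at h1
        rcases hj with hj | hj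
        · omega
        · left; omega
  refine ⟨fun j => if w j = n then 1 else 0, fun j => ?_, ?_, fun j => ?_, fun j p hj hp => ?_⟩
  · dsimp only
    split_ifs
    · exact Or.inr rfl
    · exact Or.inl rfl
  · dsimp only
    rw [hwi, if_neg hn'.ne]
  · dsimp only
    have h1 := hmun j
    rcases hwall (j + 1) with h2 | h2 <;> rcases hwall (j - 1) with h3 | h3
    · rw [h2, h3, sub_zero] at h1
      rw [h2, h3, if_neg hn'.ne]
      rcases mul_eq_zero.mp h1 with h4 | h4
      · omega
      · rw [h4]; rfl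
    · rw [h2, h3] at h1
      rw [h2, h3, if_neg hn'.ne, if_pos rfl]
      have h4 : (n : ℤ) * (mu j a + 1) = 0 := by linear_combination h1
      rcases mul_eq_zero.mp h4 with h5 | h5
      · omega
      · omega
    · rw [h2, h3] at h1
      rw [h2, h3, if_neg hn'.ne, if_pos rfl]
      have h4 : (n : ℤ) * (mu j a - 1) = 0 := by linear_combination h1
      rcases mul_eq_zero.mp h4 with h5 | h5
      · omega
      · omega
    · rw [h2, h3, sub_self] at h1
      rw [h2, h3, if_pos rfl]
      rcases mul_eq_zero.mp h1 with h4 | h4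
      · omega
      · rw [h4]; rfl
  · dsimp only at hj
    have hwj : w j = n := by
      by_contra h
      rw [if_neg h] at hj
      omega
    have h1 := hphin j p
    rw [hwj, hp] at h1
    rcases hD.bin a ha p with h | h
    · rw [h] at h1
      omega
    · exact h

/-- The case of an exponent disjoint from `Z i`. -/
theorem cnf_aux (hR : RaySpanS) (hE : E2S) (hT : TopS) (h1 : F1S) (hfp : FP phi D)
    (h2 : 2 ≤ Module.finrank ℤ L) (hC : Cyc phi D eta k Z mu)
    (hv : ∀ i, D.coeff 0 + (eta (Z i) : RO O) * D.coeff (Z i) ≠ 0) {i : ZMod (k + 3)} {a : L}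
    (ha : a ∈ supp D) (hmu : mu i a ≠ 0) (hdis : ∀ p, phi a p = 0 ∨ phi (Z i) p = 0) :
    ∃ (T : Finset (ZMod (k + 3))) (u : L), i ∉ T ∧ a = ∑ i ∈ T, Z i + u ∧ Fre phi Z mu u := by
  classical
  have hD := hfp.dd
  have hTh := (hE O P L phi D hD h2).2.1
  obtain ⟨t, v, hrev, hport, htl⟩ := hT O P L phi D hD h2
  have hmut : ∀ j, mu j t = 0 := by
    intro j
    rw [← hC.ker j]
    exact H63.le_satur _ (htl (Z j) (eta (Z j)) (cyc_ray hC j) (hv j))
  have hpt : ∀ p, phi t p = 1 := fun p => hport p (hfp.fac p).1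
  have hbZ : ∀ j, Bin phi (Z j) := fun j => hD.bin _ (cyc_ray hC j).1
  have hZ0 : ∀ j, Z j ≠ 0 := fun j => (cyc_ray hC j).2.1
  -- `b = t - a - Z i`
  have hb : t - a - Z i ∈ supp D := by
    have h3 : t - a ∈ supp D := by
      change D.coeff (t - a) ≠ 0
      rw [hrev]
      intro h
      have h4 := (mul_eq_zero.mp h).resolve_left v.ne_zero
      exact ha (Pool.Agent.B5.H59.rsh_eq_zero.mp h4)
    have hout : t - a - Z i ∉ US (eta (Z i)) (Z i) D := by
      rw [hC.ker, map_sub, map_sub, hmut, cyc_self hC]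
      intro h
      apply hmu
      omega
    have h5 := (h1 O P L phi D (Z i) (eta (Z i)) hD.inj hD.bin (hbZ i) (hZ0 i) _ hout).2 (by
      intro p
      rcases hbZ i p with h | h
      · exact Or.inr h
      · left
        have h6 := (hdis p).resolve_right (by rw [h]; decide)
        rw [map_sub, map_sub, Pi.sub_apply, Pi.sub_apply, hpt, h6, h]
        rfl)
    rw [sub_add_cancel] at h5
    change D.coeff (t - a - Z i) ≠ 0
    intro h6
    rw [h6, zero_add] at h5
    rcases mul_eq_zero.mp h5 with h7 | h7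
    · exact (eta (Z i)).ne_zero h7
    · exact h3 h7
  have hbmu : ∀ j, mu j (t - a - Z i) = -mu j a - mu j (Z i) := by
    intro j
    rw [map_sub, map_sub, hmut]
    ring
  have hbdis : ∀ p, phi (t - a - Z i) p = 0 ∨ phi (Z i) p = 0 := by
    intro p
    rcases hbZ i p with h | h
    · exact Or.inr h
    · left
      have h6 := (hdis p).resolve_right (by rw [h]; decide)
      rw [map_sub, map_sub, Pi.sub_apply, Pi.sub_apply, hpt, h6, h]
      rfl
  obtain ⟨c, hc1, hc2, hc3, hc4⟩ := numbers hD hR hTh hC ha hmu hdis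
  obtain ⟨d, hd1, hd2, hd3, hd4⟩ := numbers hD hR hTh hC hb (i := i) (by
    rw [hbmu, cyc_self hC]
    intro h
    apply hmu
    omega) hbdis
  have he : ∀ j, c j + d j + (if j = i then 1 else 0) = 1 := by
    refine two_step i ?_ ?_ ?_
    · rw [hc2, hd2, if_pos rfl]; rfl
    · rw [if_neg (ne1 i)]
      have h3 := hc3 i
      have h4 := hd3 i
      rw [hbmu, cyc_self hC, h3] at h4
      have h5 := hc1 (i + 1)
      have h6 := hc1 (i - 1)
      have h7 := hd1 (i + 1)
      have h8 := hd1 (i - 1)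
      have h9 : c (i + 1) - c (i - 1) ≠ 0 := by rw [← h3]; exact hmu
      omega
    · intro j hj
      have h3 := hc3 j
      have h4 := hd3 j
      rw [hbmu, cyc_valZ hC j i, h3] at h4
      have h5 : (if j + 1 = i then (1 : ℤ) else 0) = if i = j + 1 then 1 else 0 := by
        simp only [eq_comm]
      have h6 : (if j - 1 = i then (1 : ℤ) else 0) = if i = j - 1 then 1 else 0 := by
        simp only [eq_comm]
      rw [h5]
      rw [h6] at hj
      omega
  -- the ports of `a`
  have hin : ∀ j p, c j = 1 → phi (Z j) p = 1 → phi a p = 1 := hc4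
  have hout : ∀ j p, c j = 0 → phi (Z j) p = 1 → phi a p = 0 := by
    intro j p hcj hp
    by_cases hji : j = i
    · rw [hji] at hp
      exact (hdis p).resolve_right (by rw [hp]; decide)
    · have h3 := he j
      rw [hcj, if_neg hji] at h3
      have h4 : d j = 1 := by omega
      have h5 := hd4 j p h4 hp
      have h6 : phi (Z i) p = 0 := (hC.dis j i hji p).resolve_left (by rw [hp]; decide)
      rw [map_sub, map_sub, Pi.sub_apply, Pi.sub_apply, hpt, h6] at h5
      omega
  set T : Finset (ZMod (k + 3)) := Finset.univ.filter (fun j => c j = 1) with hTd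
  have hmemT : ∀ j, j ∈ T ↔ c j = 1 := by
    intro j
    rw [hTd, Finset.mem_filter]
    exact ⟨fun h => h.2, fun h => ⟨Finset.mem_univ _, h⟩⟩
  refine ⟨T, a - ∑ j ∈ T, Z j, ?_, by abel, ?_, ?_⟩
  · rw [hmemT, hc2]
    decide
  · -- disjoint
    intro j p
    rcases hbZ j p with h | h
    · exact Or.inr h
    · left
      rw [map_sub, Pi.sub_apply, map_sum, Finset.sum_apply]
      have hz : ∀ m, m ≠ j → phi (Z m) p = 0 := fun m hm =>
        (hC.dis m j hm p).resolve_right (by rw [h]; decide)
      by_cases hjT : j ∈ T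
      · rw [Finset.sum_eq_single j (fun m _ hm => hz m hm) (fun h5 => absurd hjT h5), h,
          hin j p ((hmemT j).1 hjT) h, sub_self]
      · rw [Finset.sum_eq_zero (fun m hm => hz m (fun h5 => hjT (h5 ▸ hm))),
          hout j p ((hc1 j).resolve_right (fun h5 => hjT ((hmemT j).2 h5))) h, sub_self]
  · intro j
    rw [map_sub, map_sum]
    have h3 : ∑ m ∈ T, mu j (Z m) = c (j + 1) - c (j - 1) := by
      have h4 : ∀ m, mu j (Z m) =
          (if m = j + 1 then 1 else 0) - (if m = j - 1 then 1 else 0) := fun m => cyc_valZ hC j m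
      simp only [h4]
      rw [Finset.sum_sub_distrib, Finset.sum_ite_eq', Finset.sum_ite_eq']
      congr 1
      · rcases hc1 (j + 1) with h5 | h5
        · rw [if_neg (fun h6 => by rw [(hmemT _).1 h6] at h5; omega), h5]
        · rw [if_pos ((hmemT _).2 h5), h5]
      · rcases hc1 (j - 1) with h5 | h5
        · rw [if_neg (fun h6 => by rw [(hmemT _).1 h6] at h5; omega), h5]
        · rw [if_pos ((hmemT _).2 h5), h5]
    rw [h3, hc3 j, sub_self]

end

/-- Row AM_NF. -/
theorem cnf (h1 : F1S) (hR : RaySpanS) (hE : E2S) (hT : TopS) : CnfS := by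
  classical
  intro O _ _ _ _ P L _ _ _ _ _ phi D eta k Z mu hfp h2 hC hv
  have hD := hfp.dd
  have hbZ : ∀ j, Bin phi (Z j) := fun j => hD.bin _ (cyc_ray hC j).1
  have hZ0 : ∀ j, Z j ≠ 0 := fun j => (cyc_ray hC j).2.1
  refine ⟨fun a ha => ?_, fun u T i hu hi hflip => ?_⟩
  · by_cases hall : ∀ i, mu i a = 0
    · exact Or.inl hall
    right
    push Not at hall
    obtain ⟨i, hmu⟩ := hall
    have hF := h1 O P L phi D (Z i) (eta (Z i)) hD.inj hD.bin (hbZ i) (hZ0 i)
    have hout : a ∉ US (eta (Z i)) (Z i) D := by rw [hC.ker]; exact hmu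
    by_cases hdis : ∀ p, phi a p = 0 ∨ phi (Z i) p = 0
    · obtain ⟨T, u, -, h3, h4⟩ := cnf_aux hR hE hT h1 hfp h2 hC hv ha hmu hdis
      exact ⟨T, u, h3, h4⟩
    · push Not at hdis
      obtain ⟨p, hp1, hp2⟩ := hdis
      have hb := hD.bin _ ha
      have hp3 : phi a p = 1 := (hb p).resolve_left hp1
      have hp4 : phi (Z i) p = 1 := (hbZ i p).resolve_left hp2
      have hsub : ∀ q, phi (Z i) q = 1 → phi a q = 1 := by
        intro q hq
        rcases hb q with h0 | h0
        · exact absurd ((hF _ hout).1 ⟨p, hp3, hp4⟩ ⟨q, h0, hq⟩) ha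
        · exact h0
      have hdis' : ∀ q, phi (a - Z i) q = 0 ∨ phi (Z i) q = 0 := by
        intro q
        rcases hbZ i q with h0 | h0
        · exact Or.inr h0
        · left
          rw [map_sub, Pi.sub_apply, hsub q h0, h0, sub_self]
      have hmu' : mu i (a - Z i) ≠ 0 := by
        rw [map_sub, cyc_self hC, sub_zero]
        exact hmu
      have hmem : a - Z i ∈ supp D := by
        have hout' : a - Z i ∉ US (eta (Z i)) (Z i) D := by rw [hC.ker]; exact hmu'
        have h5 := (hF _ hout').2 hdis'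
        rw [sub_add_cancel] at h5
        change D.coeff (a - Z i) ≠ 0
        intro h6
        rw [h6, zero_add] at h5
        rcases mul_eq_zero.mp h5 with h7 | h7
        · exact (eta (Z i)).ne_zero h7
        · exact ha h7
      obtain ⟨T, u, hiT, h3, h4⟩ := cnf_aux hR hE hT h1 hfp h2 hC hv hmem hmu' hdis'
      refine ⟨insert i T, u, ?_, h4⟩
      rw [Finset.sum_insert hiT, add_assoc, ← h3]
      abel
  · have hmuT : mu i (∑ j ∈ T, Z j + u) ≠ 0 := by
      rw [map_add, hu.2 i, add_zero, map_sum]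
      have h4 : ∀ m, mu i (Z m) =
          (if m = i + 1 then 1 else 0) - (if m = i - 1 then 1 else 0) := fun m => cyc_valZ hC i m
      simp only [h4]
      rw [Finset.sum_sub_distrib, Finset.sum_ite_eq', Finset.sum_ite_eq']
      by_cases h5 : i + 1 ∈ T
      · rw [if_pos h5, if_neg (hflip.1 h5)]
        decide
      · have h6 : i - 1 ∈ T := by
          by_contra h7
          exact h5 (hflip.2 h7)
        rw [if_neg h5, if_pos h6]
        decide
    have hout : ∑ j ∈ T, Z j + u ∉ US (eta (Z i)) (Z i) D := by rw [hC.ker]; exact hmuT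
    have h5 := (h1 O P L phi D (Z i) (eta (Z i)) hD.inj hD.bin (hbZ i) (hZ0 i) _ hout).2 (by
      intro p
      rcases hbZ i p with h0 | h0
      · exact Or.inr h0
      · left
        have h7 : phi u p = 0 := (hu.1 i p).resolve_right (by rw [h0]; decide)
        rw [map_add, Pi.add_apply, map_sum, Finset.sum_apply, h7, add_zero]
        refine Finset.sum_eq_zero fun m hm => ?_
        exact (hC.dis m i (fun h8 => hi (h8 ▸ hm)) p).resolve_right (by rw [h0]; decide))
    have h6 : ∑ j ∈ insert i T, Z j + u = ∑ j ∈ T, Z j + u + Z i := by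
      rw [Finset.sum_insert hi]
      abel
    rw [h6]
    exact h5

end Pool.Agent.B5.H52
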