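import Pool.Agent.Lib.MP_b5021c_nt.IfaceAM
import Pool.Agent.Lib.MP_b5021c_nt.E.H07.Mxu

/-!
# MP_b5021c_nt, stage 3, row AM_CYC: the cycle of rays with drop one (PaperAM.md)
-/

namespace Pool.Agent.B5.H52

open Pool.Agent.B5

/-- A two-valued neighbour relation on a finite set contains a cycle through every point. -/
theorem walk {L : Type} [DecidableEq L] {C : Set L} (hfin : C.Finite) (R T : L → L)
    (hRC : ∀ S ∈ C, R S ∈ C) (hTC : ∀ S ∈ C, T S ∈ C) (hRT : ∀ S ∈ C, R S ≠ T S)
    (hsym : ∀ S ∈ C, ∀ S', S' = R S ∨ S' = T S → S = R S' ∨ S = T S')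
    (hirr : ∀ S ∈ C, R S ≠ S ∧ T S ≠ S) {S : L} (hS : S ∈ C) :
    ∃ (k : ℕ) (Z : ZMod (k + 3) → L), Function.Injective Z ∧ (∀ i, Z i ∈ C) ∧ Z 0 = S ∧
      ∀ i, Z (i + 1) = R (Z i) ∨ Z (i + 1) = T (Z i) := by
  classical
  let oth : L → L → L := fun c p => if R c = p then T c else R c
  have hoth : ∀ c ∈ C, ∀ p, (oth c p = R c ∨ oth c p = T c) ∧ oth c p ≠ p := by
    intro c hc p
    simp only [oth]
    split_ifs with h
    · refine ⟨Or.inr rfl, fun h1 => hRT c hc ?_⟩
      rw [h, h1]
    · exact ⟨Or.inl rfl, h⟩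
  let st : ℕ → L × L := fun n => Nat.rec (S, T S) (fun _ x => (oth x.1 x.2, x.1)) n
  let s : ℕ → L := fun n => (st n).1
  have hs0 : s 0 = S := rfl
  have hstep : ∀ n, s (n + 1) = oth (s n) (st n).2 := fun n => rfl
  have hprev : ∀ n, (st (n + 1)).2 = s n := fun n => rfl
  have hsC : ∀ n, s n ∈ C := by
    intro n
    induction n with
    | zero => exact hS
    | succ n ih =>
      rw [hstep]
      rcases (hoth (s n) ih (st n).2).1 with h | h
      · rw [h]; exact hRC _ ih
      · rw [h]; exact hTC _ ih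
  have hnb : ∀ n, s (n + 1) = R (s n) ∨ s (n + 1) = T (s n) := fun n =>
    (hoth (s n) (hsC n) _).1
  have hne2 : ∀ n, s (n + 2) ≠ s n := by
    intro n
    rw [hstep (n + 1), hprev n]
    exact (hoth (s (n + 1)) (hsC (n + 1)) _).2
  have hne1 : ∀ n, s (n + 1) ≠ s n := by
    intro n
    rcases hnb n with h | h
    · rw [h]; exact (hirr _ (hsC n)).1
    · rw [h]; exact (hirr _ (hsC n)).2
  -- a repetition
  have hrep : ∃ l, ∃ m, m < l ∧ s m = s l := by
    have h1 : ¬ Function.Injective s := by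
      intro hinj
      exact Set.infinite_of_injective_forall_mem hinj hsC hfin
    rw [Function.Injective] at h1
    push Not at h1
    obtain ⟨a, b, hab, hne⟩ := h1
    rcases lt_or_gt_of_ne hne with h | h
    · exact ⟨b, a, h, hab⟩
    · exact ⟨a, b, h, hab.symm⟩
  obtain ⟨l, ⟨m, hml, hsm⟩, hmin⟩ : ∃ l, (∃ m, m < l ∧ s m = s l) ∧
      ∀ l' < l, ¬ ∃ m, m < l' ∧ s m = s l' :=
    ⟨Nat.find hrep, Nat.find_spec hrep, fun l' h => Nat.find_min hrep h⟩
  have hinj : ∀ a b, a < l → b < l → s a = s b → a = b := by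
    intro a b ha hb hab
    by_contra hne
    rcases lt_or_gt_of_ne hne with h | h
    · exact hmin b hb ⟨a, h, hab⟩
    · exact hmin a ha ⟨b, h, hab.symm⟩
  -- the neighbours of `s m`
  have hback : ∀ n, s n = R (s (n + 1)) ∨ s n = T (s (n + 1)) := fun n =>
    hsym (s n) (hsC n) (s (n + 1)) (hnb n)
  have htwo : ∀ n x, (x = R (s (n + 1)) ∨ x = T (s (n + 1))) → x = s n ∨ x = s (n + 2) := by
    intro n x hx
    have h1 := hback n
    have h2 := hnb (n + 1)
    have h3 := hne2 n
    rcases hx with hx | hx <;> rcases h1 with h1 | h1 <;> rcases h2 with h2 | h2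
    · left; rw [hx, h1]
    · left; rw [hx, h1]
    · right; rw [hx, h2]
    · exact absurd (h2.trans h1.symm) h3
    · exact absurd (h2.trans h1.symm) h3
    · right; rw [hx, h2]
    · left; rw [hx, h1]
    · left; rw [hx, h1]
  have hl0 : 0 < l := lt_of_le_of_lt (Nat.zero_le m) hml
  have hm0 : m = 0 := by
    by_contra hm
    obtain ⟨m', rfl⟩ := Nat.exists_eq_succ_of_ne_zero hm
    obtain ⟨l', hl'⟩ := Nat.exists_eq_succ_of_ne_zero hl0.ne'
    have h1 := hback l'
    rw [← Nat.succ_eq_add_one, ← hl', ← hsm] at h1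
    rcases htwo m' (s l') h1 with h | h
    · have := hinj l' m' (by omega) (by omega) h
      omega
    · by_cases hc : m' + 2 < l
      · have h5 := hinj l' (m' + 2) (by omega) hc h
        have h6 : l = m' + 1 + 2 := by omega
        rw [h6] at hsm
        exact hne2 (m' + 1) hsm.symm
      · have h6 : l = m' + 1 + 1 := by omega
        rw [h6] at hsm
        exact hne1 (m' + 1) hsm.symm
  subst hm0
  have hl3 : 3 ≤ l := by
    by_contra hcon
    have h1 : l = 1 ∨ l = 2 := by omega
    rcases h1 with h1 | h1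
    · rw [h1] at hsm
      exact hne1 0 hsm.symm
    · rw [h1] at hsm
      exact hne2 0 hsm.symm
  obtain ⟨k, hk⟩ : ∃ k, l = k + 3 := ⟨l - 3, by omega⟩
  refine ⟨k, fun i => s i.val, ?_, fun i => hsC _, ?_, ?_⟩
  · intro i j hij
    have h1 := ZMod.val_lt i
    have h2 := ZMod.val_lt j
    exact ZMod.val_injective _ (hinj _ _ (by omega) (by omega) hij)
  · change s (0 : ZMod (k + 3)).val = S
    rw [ZMod.val_zero]
    exact hs0
  · intro i
    change s (i + 1).val = R (s i.val) ∨ s (i + 1).val = T (s i.val)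
    have h1 := ZMod.val_lt i
    have h3 : (1 : ZMod (k + 3)).val = 1 := by
      have := ZMod.val_natCast (k + 3) 1
      rw [Nat.cast_one, Nat.mod_eq_of_lt (by omega)] at this
      exact this
    by_cases hc : i.val + 1 < k + 3
    · have h2 : (i + 1).val = i.val + 1 := by
        rw [ZMod.val_add, h3, Nat.mod_eq_of_lt hc]
      rw [h2]
      exact hnb _
    · have h4 : i.val + 1 = k + 3 := by omega
      have h2 : (i + 1).val = 0 := by
        rw [ZMod.val_add, h3, h4, Nat.mod_self]
      have h6 : s (k + 3) = s 0 := by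
        rw [hk] at hsm
        exact hsm.symm
      have h5 := hnb i.val
      rw [h4, h6] at h5
      rw [h2]
      exact h5

/-- Equality of small casts. -/
theorem cast_inj (k : ℕ) {a b : ℕ} (ha : a < k + 3) (hb : b < k + 3)
    (h : ((a : ℕ) : ZMod (k + 3)) = ((b : ℕ) : ZMod (k + 3))) : a = b := by
  have := (ZMod.natCast_eq_natCast_iff' a b (k + 3)).1 h
  rwa [Nat.mod_eq_of_lt ha, Nat.mod_eq_of_lt hb] at this

/-- Row AM_CYC. -/
theorem cyc (hN : NbrS) (hM : McoS) (h1 : F1S) : CycS := by
  classical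
  intro O _ _ _ _ P L _ _ _ _ _ phi D eta θ C hMin htwo hA S hS
  have hD := hMin.fp.dd
  have hN' := hN O P L phi D eta θ C hMin htwo hA
  choose! mu R T hker hRC hTC hmR hmT hothr hval using hN'
  have hmS : ∀ S ∈ C, mu S S = 0 := fun S hS => (hker S hS S).1 (H07.mem_US _ _ _)
  have hRT : ∀ S ∈ C, R S ≠ T S := by
    intro S hS h
    have h2 := hmR S hS
    have h3 := hmT S hS
    rw [h] at h2
    omega
  have hnb : ∀ S ∈ C, ∀ S', S' = R S ∨ S' = T S → Mut D S S' (eta S) (eta S') := by
    intro S hS S' h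
    have h2 : mu S S' ≠ 0 := by
      rcases h with h | h
      · rw [h, hmR S hS]; decide
      · rw [h, hmT S hS]; decide
    have h3 : S' ∈ C := by
      rcases h with h | h
      · rw [h]; exact hRC S hS
      · rw [h]; exact hTC S hS
    exact (hA.mtl S hS S' (hA.ray S' h3) (fun h4 => h2 ((hker S hS S').1 h4))).2
  have hsym : ∀ S ∈ C, ∀ S', S' = R S ∨ S' = T S → S = R S' ∨ S = T S' := by
    intro S hS S' h
    have m := hnb S hS S' h
    have h3 : S' ∈ C := by
      rcases h with h | h
      · rw [h]; exact hRC S hS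
      · rw [h]; exact hTC S hS
    by_contra hcon
    push Not at hcon
    exact m.m1 ((hker S' h3 S).2 (hothr S' h3 S (hA.ray S hS) hcon.1 hcon.2))
  have hirr : ∀ S ∈ C, R S ≠ S ∧ T S ≠ S := by
    intro S hS
    constructor
    · intro h
      have := hmR S hS
      rw [h, hmS S hS] at this
      omega
    · intro h
      have := hmT S hS
      rw [h, hmS S hS] at this
      omega
  have hfin : C.Finite := by
    refine (D.coeff.support.finite_toSet).subset fun b hb => ?_
    exact Finsupp.mem_support_iff.mpr (hA.ray b hb).1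
  obtain ⟨k, Z, hZi, hZC, hZ0, hZn⟩ := walk hfin R T hRC hTC hRT hsym hirr hS
  have hZm : ∀ i, Mut D (Z i) (Z (i + 1)) (eta (Z i)) (eta (Z (i + 1))) := fun i =>
    hnb _ (hZC i) _ (hZn i)
  have hZp : ∀ i, Z (i - 1) = R (Z i) ∨ Z (i - 1) = T (Z i) := by
    intro i
    have h2 := hZn (i - 1)
    rw [sub_add_cancel] at h2
    exact hsym _ (hZC (i - 1)) _ h2
  have h2ne : ∀ i : ZMod (k + 3), i + 1 ≠ i - 1 := by
    intro i h
    have h3 : ((2 : ℕ) : ZMod (k + 3)) = ((0 : ℕ) : ZMod (k + 3)) := by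
      push_cast
      linear_combination h
    have := cast_inj k (by omega) (by omega) h3
    omega
  have h1ne : ∀ i : ZMod (k + 3), i + 1 ≠ i := by
    intro i h
    have h3 : ((1 : ℕ) : ZMod (k + 3)) = ((0 : ℕ) : ZMod (k + 3)) := by
      push_cast
      linear_combination h
    have := cast_inj k (by omega) (by omega) h3
    omega
  let nu : ZMod (k + 3) → L →+ ℤ := fun i =>
    if Z (i + 1) = R (Z i) then mu (Z i) else -mu (Z i)
  have hnu : ∀ i, (Z (i + 1) = R (Z i) ∧ Z (i - 1) = T (Z i) ∧ nu i = mu (Z i)) ∨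
      (Z (i + 1) = T (Z i) ∧ Z (i - 1) = R (Z i) ∧ nu i = -mu (Z i)) := by
    intro i
    by_cases h : Z (i + 1) = R (Z i)
    · left
      refine ⟨h, ?_, if_pos h⟩
      rcases hZp i with h3 | h3
      · exact absurd (hZi (h.trans h3.symm)) (h2ne i)
      · exact h3
    · right
      have h4 := (hZn i).resolve_left h
      refine ⟨h4, ?_, if_neg h⟩
      rcases hZp i with h3 | h3
      · exact h3
      · exact absurd (hZi (h4.trans h3.symm)) (h2ne i)
  have hnxt : ∀ i, nu i (Z (i + 1)) = 1 := by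
    intro i
    rcases hnu i with ⟨h3, -, h5⟩ | ⟨h3, -, h5⟩
    · rw [h5, h3, hmR _ (hZC i)]
    · rw [h5, h3, AddMonoidHom.neg_apply, hmT _ (hZC i)]; rfl
  have hprv : ∀ i, nu i (Z (i - 1)) = -1 := by
    intro i
    rcases hnu i with ⟨-, h3, h5⟩ | ⟨-, h3, h5⟩
    · rw [h5, h3, hmT _ (hZC i)]
    · rw [h5, h3, AddMonoidHom.neg_apply, hmR _ (hZC i)]
  have hnker : ∀ i a, a ∈ US (eta (Z i)) (Z i) D ↔ nu i a = 0 := by
    intro i a
    rw [hker _ (hZC i)]
    rcases hnu i with ⟨-, -, h5⟩ | ⟨-, -, h5⟩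
    · rw [h5]
    · rw [h5, AddMonoidHom.neg_apply, neg_eq_zero]
  have hnoth : ∀ i T', Ray D T' → T' ≠ Z (i + 1) → T' ≠ Z (i - 1) → nu i T' = 0 := by
    intro i T' hT' h6 h7
    rcases hnu i with ⟨h3, h4, h5⟩ | ⟨h3, h4, h5⟩
    · rw [h5]
      exact hothr _ (hZC i) T' hT' (h3 ▸ h6) (h4 ▸ h7)
    · rw [h5, AddMonoidHom.neg_apply, neg_eq_zero]
      exact hothr _ (hZC i) T' hT' (h4 ▸ h7) (h3 ▸ h6)
  have hnval : ∀ i, ∀ a ∈ supp D, nu i a = 0 ∨ nu i a = 1 ∨ nu i a = -1 := by
    intro i a ha
    have h6 := hval _ (hZC i) a ha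
    rcases hnu i with ⟨-, -, h5⟩ | ⟨-, -, h5⟩
    · rw [h5]; exact h6
    · rw [h5, AddMonoidHom.neg_apply]
      omega
  have hnself : ∀ i, nu i (Z i) = 0 := fun i => (hnker i _).1 (H07.mem_US _ _ _)
  have hnZ : ∀ i j, j ≠ i + 1 → j ≠ i - 1 → nu i (Z j) = 0 := by
    intro i j h6 h7
    exact hnoth i (Z j) (hA.ray _ (hZC j)) (fun h => h6 (hZi h)) (fun h => h7 (hZi h))
  -- the arcs
  let a : ZMod (k + 3) → ℕ → L := fun i n => ∑ j ∈ Finset.range n, Z (i + (j : ℕ))
  have ha0 : ∀ i, a i 0 = 0 := fun i => Finset.sum_range_zero _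
  have has : ∀ i n, a i (n + 1) = a i n + Z (i + (n : ℕ)) := fun i n =>
    Finset.sum_range_succ _ _
  have hA1 : ∀ i N, N ≤ k + 1 → ∀ n, n < N → nu (i + (N : ℕ)) (a i n) = 0 := by
    intro i N hNk n
    induction n with
    | zero => intro _; rw [ha0, map_zero]
    | succ n ih =>
      intro hn
      rw [has, map_add, ih (by omega), zero_add]
      apply hnZ
      · intro h
        have h3 : ((n : ℕ) : ZMod (k + 3)) = ((N + 1 : ℕ) : ZMod (k + 3)) := by
          push_cast
          linear_combination h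
        have := cast_inj k (by omega) (by omega) h3
        omega
      · intro h
        have h3 : ((n + 1 : ℕ) : ZMod (k + 3)) = ((N : ℕ) : ZMod (k + 3)) := by
          push_cast
          linear_combination h
        have := cast_inj k (by omega) (by omega) h3
        omega
  have hA2 : ∀ i N, N + 1 ≤ k + 1 → nu (i + ((N + 1 : ℕ) : ZMod (k + 3))) (a i (N + 1)) = -1 := by
    intro i N hNk
    rw [has, map_add, hA1 i (N + 1) hNk N (by omega), zero_add]
    have h3 : i + ((N : ℕ) : ZMod (k + 3)) = i + ((N + 1 : ℕ) : ZMod (k + 3)) - 1 := by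
      push_cast
      ring
    rw [h3]
    exact hprv _
  have hbZ : ∀ i, Bin phi (Z i) := fun i => hD.bin _ (hA.ray _ (hZC i)).1
  have hZne : ∀ i, Z i ≠ 0 := fun i => (hA.ray _ (hZC i)).2.1
  have hA3 : ∀ i n, n + 1 ≤ k + 2 → a i (n + 1) ∈ supp D := by
    intro i n
    induction n with
    | zero =>
      intro _
      rw [has, ha0, zero_add, Nat.cast_zero, add_zero]
      exact (hA.ray _ (hZC i)).1
    | succ n ih =>
      intro hn
      have h3 := ih (by omega)
      rw [has]
      set N : ZMod (k + 3) := i + ((n + 1 : ℕ) : ZMod (k + 3)) with hNd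
      have hout : a i (n + 1) ∉ US (eta (Z N)) (Z N) D := by
        rw [hnker, hA2 i n (by omega)]
        decide
      have hF := h1 O P L phi D (Z N) (eta (Z N)) hD.inj hD.bin (hbZ N) (hZne N)
      have hdj : ∀ p, phi (a i (n + 1)) p = 0 ∨ phi (Z N) p = 0 := by
        by_contra hcon
        push Not at hcon
        obtain ⟨p, hp1, hp2⟩ := hcon
        have hb := hD.bin _ h3
        have hp3 : phi (a i (n + 1)) p = 1 := (hb p).resolve_left hp1
        have hp4 : phi (Z N) p = 1 := (hbZ N p).resolve_left hp2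
        -- it contains `Z N`
        have hsub : ∀ q, phi (Z N) q = 1 → phi (a i (n + 1)) q = 1 := by
          intro q hq
          rcases hb q with h0 | h0
          · exact absurd ((hF _ hout).1 ⟨p, hp3, hp4⟩ ⟨q, h0, hq⟩) h3
          · exact h0
        have hmem : D.coeff (a i (n + 1) - Z N) ≠ 0 := by
          have hout' : a i (n + 1) - Z N ∉ US (eta (Z N)) (Z N) D := by
            intro h
            apply hout
            have := (US (eta (Z N)) (Z N) D).add_mem h (H07.mem_US _ _ _)
            rwa [sub_add_cancel] at this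
          have h5 := (hF _ hout').2 (by
            intro q
            rcases hbZ N q with h0 | h0
            · exact Or.inr h0
            · left
              rw [map_sub, Pi.sub_apply, hsub q h0, h0, sub_self])
          rw [sub_add_cancel] at h5
          intro h6
          rw [h6, zero_add] at h5
          rcases mul_eq_zero.mp h5 with h7 | h7
          · exact (eta (Z N)).ne_zero h7
          · exact h3 h7
        rcases Nat.eq_zero_or_pos n with hn0 | hn0
        · -- adjacent rays are disjoint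
          subst hn0
          have hN1 : N = i + 1 := by rw [hNd]; push_cast; ring
          have h7 := (hM O P L phi D (Z i) (Z (i + 1)) (eta (Z i)) (eta (Z (i + 1))) hD.inj
            hD.bin (hZm i)).1 p
          have h8 : a i (0 + 1) = Z i := by rw [has, ha0, zero_add, Nat.cast_zero, add_zero]
          rw [h8] at hp1
          rw [hN1] at hp2
          rcases h7 with h7 | h7
          · exact hp1 h7
          · exact hp2 h7
        · obtain ⟨n', rfl⟩ := Nat.exists_eq_succ_of_ne_zero hn0.ne'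
          have h7 := hnval (i + ((n' + 1 : ℕ) : ZMod (k + 3))) _ hmem
          rw [map_sub, has, map_add, hA2 i n' (by omega)] at h7
          have h8 : nu (i + ((n' + 1 : ℕ) : ZMod (k + 3))) (Z (i + ((n'.succ : ℕ) : ZMod (k + 3)))) = 0 :=
            hnself _
          have h9 : nu (i + ((n' + 1 : ℕ) : ZMod (k + 3))) (Z N) = 1 := by
            have h10 : N = i + ((n' + 1 : ℕ) : ZMod (k + 3)) + 1 := by
              rw [hNd]; push_cast; ring
            rw [h10]
            exact hnxt _
          rw [h8, h9] at h7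
          omega
      have h5 := (hF _ hout).2 hdj
      change D.coeff (a i (n + 1) + Z N) ≠ 0
      intro h6
      rw [h6, mul_zero, add_zero] at h5
      exact h3 h5
  have hdis : ∀ i j, i ≠ j → ∀ p, phi (Z i) p = 0 ∨ phi (Z j) p = 0 := by
    intro i j hij p
    obtain ⟨m, hm, hj⟩ : ∃ m : ℕ, m < k + 3 ∧ j = i + (m : ℕ) := by
      refine ⟨(j - i).val, ZMod.val_lt _, ?_⟩
      rw [ZMod.natCast_zmod_val, add_sub_cancel]
    have hm0 : m ≠ 0 := by
      rintro rfl
      exact hij (by rw [hj, Nat.cast_zero, add_zero])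
    by_cases hc : m + 1 ≤ k + 2
    · have h3 := hA3 i m hc
      have hb := hD.bin _ h3 p
      have h4 : phi (a i (m + 1)) p = ∑ x ∈ Finset.range (m + 1), phi (Z (i + (x : ℕ))) p := by
        simp only [a]
        rw [map_sum, Finset.sum_apply]
      have hnn : ∀ x, 0 ≤ phi (Z x) p := by
        intro x
        rcases hbZ x p with h | h <;> omega
      by_contra hcon
      push Not at hcon
      have h5 : phi (Z i) p = 1 := (hbZ i p).resolve_left hcon.1
      have h6 : phi (Z j) p = 1 := (hbZ j p).resolve_left hcon.2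
      have h7 : ∑ x ∈ ({0, m} : Finset ℕ), phi (Z (i + (x : ℕ))) p ≤
          ∑ x ∈ Finset.range (m + 1), phi (Z (i + (x : ℕ))) p := by
        apply Finset.sum_le_sum_of_subset_of_nonneg
        · intro x hx
          rw [Finset.mem_insert, Finset.mem_singleton] at hx
          rw [Finset.mem_range]
          omega
        · intro x _ _
          exact hnn _
      rw [Finset.sum_pair (Ne.symm hm0), Nat.cast_zero, add_zero, h5, ← hj, h6, ← h4] at h7
      omega
    · have hm2 : m = k + 2 := by omega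
      have hji : i = j + 1 := by
        have h3 : ((k + 3 : ℕ) : ZMod (k + 3)) = 0 := ZMod.natCast_self _
        rw [hj, hm2]
        push_cast at h3 ⊢
        linear_combination -h3
      have h7 := (hM O P L phi D (Z j) (Z (j + 1)) (eta (Z j)) (eta (Z (j + 1))) hD.inj
            hD.bin (hZm j)).1 p
      rw [← hji] at h7
      exact h7.symm
  have hcoe1 : ∀ i, (eta (Z (i + 1)) : RO O) * D.coeff (Z (i + 1)) =
      (eta (Z i) : RO O) * D.coeff (Z i) := fun i =>
    (hM O P L phi D (Z i) (Z (i + 1)) (eta (Z i)) (eta (Z (i + 1))) hD.inj hD.bin (hZm i)).2.1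
  have hcoen : ∀ n : ℕ, (eta (Z (n : ℕ)) : RO O) * D.coeff (Z (n : ℕ)) =
      (eta (Z 0) : RO O) * D.coeff (Z 0) := by
    intro n
    induction n with
    | zero => rw [Nat.cast_zero]
    | succ n ih =>
      rw [Nat.cast_add, Nat.cast_one, hcoe1, ih]
  have hcoe : ∀ i, (eta (Z i) : RO O) * D.coeff (Z i) =
      (eta (Z 0) : RO O) * D.coeff (Z 0) := by
    intro i
    have := hcoen i.val
    rwa [ZMod.natCast_zmod_val] at this
  exact ⟨k, Z, nu, ⟨hZi, hZm, hdis, fun i j => (hcoe i).trans (hcoe j).symm, hnker, hnxt, hprv,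
    hnoth, hnval⟩, hZ0, hZC⟩

end Pool.Agent.B5.H52
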