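import Pool.Agent.Lib.MP_b5021c_nt.B.H71.Com
import Pool.Agent.Lib.MP_b5021c_nt.IfaceB

/-!
# Board b5, chapter LEV: divisibility by several factors `1 - w^b`, simplicial case (helper52)

If a binary element is divisible by `1 - w^b` for all `b` of a spanning family, then the ports of
the `b` are disjoint, every binary exponent is a subset sum and the element is
`c ∏ (1 - w^b)`.
-/

namespace Pool.Agent.B5.H52.Div

open scoped LaurentPolynomial
open AddMonoidAlgebra

variable {O : Type} [CommRing O] [IsDomain O] {L : Type} [AddCommGroup L]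
  [Module.Free ℤ L] [Module.Finite ℤ L]

omit [IsDomain O] [Module.Free ℤ L] [Module.Finite ℤ L] in
/-- If the closing `w^S = eta` kills `Q` then `1 - eta⁻¹ w^S` divides `Q`. -/
theorem dvd_of_cl (k : L →+ ℤ) (S : L) (h : k S = 1) (eta : (RO O)ˣ) {Q : AO O L}
    (hQ : cl k S h eta Q = 0) : (1 - single S ((eta⁻¹ : (RO O)ˣ) : RO O)) ∣ Q := by
  have h1 := H71.cl_dvd k S h eta Q
  rwa [hQ, map_zero, sub_zero] at h1

omit [IsDomain O] [Module.Free ℤ L] [Module.Finite ℤ L] in
/-- The converse of `dvd_of_cl`. -/
theorem cl_of_dvd (k : L →+ ℤ) (S : L) (h : k S = 1) (eta : (RO O)ˣ) {Q : AO O L}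
    (hQ : (1 - single S ((eta⁻¹ : (RO O)ˣ) : RO O)) ∣ Q) : cl k S h eta Q = 0 := by
  obtain ⟨W, hW⟩ := hQ
  rw [hW, map_mul, H71.cl_factor, zero_mul]

omit [Module.Free ℤ L] [Module.Finite ℤ L] in
/-- `1 - c w^b ≠ 0` for `b ≠ 0`. -/
theorem one_sub_ne {b : L} (hb : b ≠ 0) (c : RO O) : (1 - single b c : AO O L) ≠ 0 := by
  intro h
  have h1 : (1 - single b c : AO O L).coeff 0 = 1 := by
    rw [coeff_sub, Finsupp.sub_apply, coeff_single, Finsupp.single_eq_of_ne (Ne.symm hb),
      sub_zero, one_def, coeff_single, Finsupp.single_eq_same]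
  rw [h] at h1
  exact zero_ne_one h1

/-- Several factors `1 - w^b / e`, pairwise not proportional. -/
theorem prod_dvd {ι : Type} [DecidableEq ι] (s : Finset ι) (k : ι → L →+ ℤ) (b : ι → L)
    (h : ∀ i, k i (b i) = 1) (e : ι → (RO O)ˣ)
    (hne : ∀ i ∈ s, ∀ j ∈ s, i ≠ j → b j ≠ k i (b j) • b i) (Q : AO O L)
    (hQ : ∀ i ∈ s, cl (k i) (b i) (h i) (e i) Q = 0) :
    (∏ i ∈ s, (1 - single (b i) (((e i)⁻¹ : (RO O)ˣ) : RO O))) ∣ Q := by
  induction s using Finset.induction_on with
  | empty => simp
  | insert j s hj ih =>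
    obtain ⟨W, hW⟩ := ih (fun i hi l hl => hne i (Finset.mem_insert_of_mem hi) l
      (Finset.mem_insert_of_mem hl)) (fun i hi => hQ i (Finset.mem_insert_of_mem hi))
    have h1 := hQ j (Finset.mem_insert_self j s)
    rw [hW, map_mul, map_prod] at h1
    have h2 : ∏ i ∈ s, cl (k j) (b j) (h j) (e j)
        (1 - single (b i) (((e i)⁻¹ : (RO O)ˣ) : RO O)) ≠ 0 := by
      rw [Finset.prod_ne_zero_iff]
      intro i hi
      rw [map_sub, map_one, cl_single]
      apply one_sub_ne
      intro h3
      have h4 : ((prj (k j) (b j) (h j) (b i) : Ker (k j)) : L) = 0 := by rw [h3]; rfl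
      rw [prj_coe, sub_eq_zero] at h4
      exact hne j (Finset.mem_insert_self j s) i (Finset.mem_insert_of_mem hi)
        (fun h5 => hj (h5 ▸ hi)) h4
    have h3 := (mul_eq_zero.mp h1).resolve_left h2
    obtain ⟨V, hV⟩ := dvd_of_cl (k j) (b j) (h j) (e j) h3
    rw [Finset.prod_insert hj, hW, hV]
    exact ⟨V, by ring⟩

variable [IsPrincipalIdealRing O] [Coef O]

/-- A binary non-zero element is not divisible by `(1 - c w^b) (1 - c' w^b')` if `b` and `b'` have
a common port. -/
theorem disj (hMin : MinS) {P : Type} (phi : L →+ (P → ℤ)) {Q : AO O L} (hQ0 : Q ≠ 0)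
    (hbin : ∀ a ∈ supp Q, Bin phi a) {b b' : L} {c c' : RO O} (hc : c ≠ 0) (hc' : c' ≠ 0) {p : P}
    (hb : phi b p = 1) (hb' : phi b' p = 1)
    (hd : (1 - single b c) * (1 - single b' c') ∣ Q) : False := by
  obtain ⟨W, hW⟩ := hd
  have hW0 : W ≠ 0 := by
    rintro rfl
    exact hQ0 (by rw [hW, mul_zero])
  have hne : b ≠ 0 := by
    rintro rfl
    rw [map_zero] at hb
    exact zero_ne_one hb
  have hne' : b' ≠ 0 := by
    rintro rfl
    rw [map_zero] at hb'
    exact zero_ne_one hb'
  have hne2 : b + b' ≠ 0 := by
    intro h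
    have h1 := congrArg (fun x => phi x p) h
    simp only [map_add, map_zero, Pi.add_apply, Pi.zero_apply, hb, hb'] at h1
    omega
  have hH : ((1 - single b c) * (1 - single b' c') : AO O L) =
      1 - single b c - single b' c' + single (b + b') (c * c') := by
    rw [mul_sub, sub_mul, sub_mul, single_mul_single]
    ring
  obtain ⟨k, hk⟩ : ∃ k : L →+ ℤ, k = (Pi.evalAddMonoidHom (fun _ : P => ℤ) p).comp phi := ⟨_, rfl⟩
  have hkv : ∀ a, k a = phi a p := fun a => by rw [hk]; rfl
  have h1 : ∀ a ∈ supp W, 0 ≤ k a := by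
    apply hMin O L W ((1 - single b c) * (1 - single b' c')) hW0
    · rw [hH]
      simp only [coeff_add, coeff_sub, Finsupp.add_apply, Finsupp.sub_apply, coeff_single, one_def]
      rw [Finsupp.single_eq_same, Finsupp.single_eq_of_ne (Ne.symm hne),
        Finsupp.single_eq_of_ne (Ne.symm hne'), Finsupp.single_eq_of_ne (Ne.symm hne2)]
      simp
    · intro a ha
      rw [mul_comm, ← hW] at ha
      rw [hkv]
      rcases hbin a ha p with h | h <;> omega
  have h2 : ∀ a ∈ supp W, (1 : ℤ) ≤ (-k) a := by
    apply hMin O L W (single (-(b + b')) 1 * ((1 - single b c) * (1 - single b' c'))) hW0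
    · rw [hH, coeff_single_mul_apply, one_mul, neg_neg, add_zero]
      simp only [coeff_add, coeff_sub, Finsupp.add_apply, Finsupp.sub_apply, coeff_single, one_def]
      rw [Finsupp.single_eq_same, Finsupp.single_eq_of_ne hne2,
        Finsupp.single_eq_of_ne (fun h => hne' (by simpa using h)),
        Finsupp.single_eq_of_ne (fun h => hne (by simpa using h))]
      simpa using ⟨hc, hc'⟩
    · intro a ha
      have ha' : a ∈ supp (single (-(b + b')) 1 * Q) := by
        have h3 : W * (single (-(b + b')) 1 * ((1 - single b c) * (1 - single b' c'))) =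
            single (-(b + b')) 1 * Q := by
          rw [hW]
          ring
        rwa [h3] at ha
      have ha2 : (b + b') + a ∈ supp Q := by
        have h4 : (single (-(b + b')) 1 * Q).coeff a ≠ 0 := ha'
        rw [coeff_single_mul_apply, one_mul, neg_neg] at h4
        exact h4
      have h5 := hbin _ ha2 p
      rw [map_add, map_add] at h5
      simp only [Pi.add_apply, hb, hb'] at h5
      rw [AddMonoidHom.neg_apply, hkv]
      omega
  obtain ⟨a, ha⟩ : ∃ a, a ∈ supp W := by
    by_contra hcon
    push Not at hcon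
    apply hW0
    apply AddMonoidAlgebra.ext
    apply Finsupp.ext
    intro a
    by_contra h3
    exact hcon a h3
  have h3 := h1 a ha
  have h4 := h2 a ha
  rw [AddMonoidHom.neg_apply] at h4
  omega

omit [IsDomain O] [Module.Finite ℤ L] [IsPrincipalIdealRing O] [Coef O] in
/-- A sum of coefficients of a family with dual ports. -/
theorem subset_sum {ι P : Type} [Fintype ι] [DecidableEq ι] (phi : L →+ (P → ℤ)) (b : ι → L)
    (p : ι → P) (hp : ∀ i j, phi (b i) (p j) = if i = j then 1 else 0) {a : L} {n : ℤ}
    (hn : n ≠ 0) (ha : n • a ∈ Submodule.span ℤ (Set.range b)) :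
    a = ∑ i, phi a (p i) • b i := by
  rw [Submodule.mem_span_range_iff_exists_fun] at ha
  obtain ⟨c, hc⟩ := ha
  have h1 : ∀ j, c j = n * phi a (p j) := by
    intro j
    have h2 := congrArg (fun x => phi x (p j)) hc
    simp only [map_sum, map_zsmul, Finset.sum_apply, Pi.smul_apply, hp, smul_eq_mul] at h2
    rw [← h2]
    simp
  have h3 : n • a = n • ∑ i, phi a (p i) • b i := by
    rw [← hc, Finset.smul_sum]
    apply Finset.sum_congr rfl
    intro i _
    rw [h1 i, mul_smul]
  have h4 : n • (a - ∑ i, phi a (p i) • b i) = 0 := by rw [smul_sub, h3, sub_self]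
  exact sub_eq_zero.mp ((smul_eq_zero.mp h4).resolve_left hn)

/-- The product of the factors `1 - c w^b`. -/
theorem prod_pos (hC : Coeff0S) {ι : Type} [DecidableEq ι] (lam : L →+ ℤ) (s : Finset ι)
    (b : ι → L) (c : ι → RO O) (h : ∀ i ∈ s, 0 < lam (b i)) :
    Pos lam (∏ i ∈ s, (1 - single (b i) (c i) : AO O L)) ∧
      (∏ i ∈ s, (1 - single (b i) (c i) : AO O L)).coeff 0 = 1 := by
  induction s using Finset.induction_on with
  | empty =>
    refine ⟨?_, ?_⟩
    · intro a ha ha0
      exfalso
      rw [Finset.prod_empty, one_def, Finsupp.mem_support_iff, coeff_single,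
        Finsupp.single_eq_of_ne ha0] at ha
      exact ha rfl
    · rw [Finset.prod_empty, one_def, coeff_single, Finsupp.single_eq_same]
  | insert j s hj ih =>
    obtain ⟨h1, h2⟩ := ih (fun i hi => h i (Finset.mem_insert_of_mem hi))
    have hb : 0 < lam (b j) := h j (Finset.mem_insert_self j s)
    have hb0 : b j ≠ 0 := by
      intro h3
      rw [h3, map_zero] at hb
      exact lt_irrefl _ hb
    have h3 : Pos lam (1 - single (b j) (c j) : AO O L) := by
      intro a ha ha0
      rw [Finsupp.mem_support_iff, coeff_sub, Finsupp.sub_apply, one_def, coeff_single,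
        coeff_single, Finsupp.single_eq_of_ne ha0, zero_sub, neg_ne_zero] at ha
      by_cases h4 : a = b j
      · rw [h4]
        exact hb
      · rw [Finsupp.single_eq_of_ne h4] at ha
        exact absurd rfl ha
    have h4 : (1 - single (b j) (c j) : AO O L).coeff 0 = 1 := by
      rw [coeff_sub, Finsupp.sub_apply, one_def, coeff_single, coeff_single,
        Finsupp.single_eq_same, Finsupp.single_eq_of_ne (Ne.symm hb0), sub_zero]
    obtain ⟨h5, h6⟩ := hC O L _ _ lam h3 h1
    rw [Finset.prod_insert hj]
    exact ⟨h6, by rw [h5, h2, h4, one_mul]⟩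

/-- THE SIMPLICIAL CASE: a binary element divisible by `∏ (1 - c_i w^(b_i))`, the `b_i` spanning
with dual ports, is a constant times this product. -/
theorem quot_cst (hMin : MinS) (hC : Coeff0S) {ι P : Type} [Fintype ι] [DecidableEq ι]
    (phi : L →+ (P → ℤ)) (b : ι → L) (p : ι → P)
    (hp : ∀ i j, phi (b i) (p j) = if i = j then 1 else 0)
    (hspan : ∀ a : L, ∃ n : ℤ, n ≠ 0 ∧ n • a ∈ Submodule.span ℤ (Set.range b))
    (c : ι → RO O) (hc : ∀ i, c i ≠ 0) {Q : AO O L} (hbin : ∀ a ∈ supp Q, Bin phi a)
    (hd : (∏ i, (1 - single (b i) (c i) : AO O L)) ∣ Q) :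
    ∃ κ : RO O, Q = cst κ * ∏ i, (1 - single (b i) (c i)) := by
  by_cases hQ0 : Q = 0
  · refine ⟨0, ?_⟩
    have h0 : (cst (0 : RO O) : AO O L) = 0 := single_zero 0
    rw [hQ0, h0, zero_mul]
  obtain ⟨W, hW⟩ := hd
  have hW0 : W ≠ 0 := by
    rintro rfl
    exact hQ0 (by rw [hW, mul_zero])
  obtain ⟨k, hk⟩ : ∃ k : ι → L →+ ℤ, ∀ j a, k j a = phi a (p j) :=
    ⟨fun j => (Pi.evalAddMonoidHom (fun _ : P => ℤ) (p j)).comp phi, fun _ _ => rfl⟩
  obtain ⟨lam, hlam⟩ : ∃ lam : L →+ ℤ, ∀ a, lam a = ∑ j, phi a (p j) := by
    refine ⟨∑ j, k j, fun a => ?_⟩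
    rw [AddMonoidHom.finsetSum_apply]
    exact Finset.sum_congr rfl fun j _ => hk j a
  have hlb : ∀ i, lam (b i) = 1 := by
    intro i
    rw [hlam]
    simp [hp]
  have hmain : ∀ j, ∀ a ∈ supp W, k j a = 0 := by
    intro j a ha
    have hpos := prod_pos hC lam Finset.univ b c (fun i _ => by rw [hlb i]; exact one_pos)
    have h1 : ∀ a ∈ supp W, 0 ≤ k j a := by
      apply hMin O L W (∏ i, (1 - single (b i) (c i))) hW0
      · rw [hpos.2]
        exact one_ne_zero
      · intro a ha
        rw [mul_comm, ← hW] at ha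
        rw [hk]
        rcases hbin a ha (p j) with h | h <;> omega
    have h2 : ∀ a ∈ supp W, (0 : ℤ) ≤ (-k j) a := by
      have hbj : b j ≠ 0 := by
        intro h3
        have h4 := hlb j
        rw [h3, map_zero] at h4
        exact zero_ne_one h4
      have hpos' := prod_pos hC lam (Finset.univ.erase j) b c
        (fun i _ => by rw [hlb i]; exact one_pos)
      -- the product without `j`
      obtain ⟨H, hH⟩ : ∃ H : AO O L, H = ∏ i ∈ Finset.univ.erase j, (1 - single (b i) (c i)) :=
        ⟨_, rfl⟩
      rw [← hH] at hpos'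
      have hprod : ∏ i, (1 - single (b i) (c i) : AO O L) = (1 - single (b j) (c j)) * H := by
        rw [hH]
        exact (Finset.mul_prod_erase Finset.univ (fun i => (1 - single (b i) (c i) : AO O L))
          (Finset.mem_univ j)).symm
      apply hMin O L W (single (-b j) 1 * ∏ i, (1 - single (b i) (c i))) hW0
      · -- coefficient at `b j`
        rw [coeff_single_mul_apply, one_mul, neg_neg, add_zero, hprod, sub_mul, one_mul,
          coeff_sub, Finsupp.sub_apply, coeff_single_mul_apply, neg_add_cancel, hpos'.2, mul_one]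
        have hHk : H.coeff (b j) = 0 := by
          have h5 : ∀ a ∈ supp H, k j a ≤ 0 := by
            have h6 : ∀ s : Finset ι, j ∉ s →
                ∀ a ∈ supp (∏ i ∈ s, (1 - single (b i) (c i) : AO O L)), k j a ≤ 0 := by
              intro s
              induction s using Finset.induction_on with
              | empty =>
                intro _ a ha
                by_cases ha0 : a = 0
                · rw [ha0, map_zero]
                · exfalso
                  have h7 : (∏ i ∈ (∅ : Finset ι), (1 - single (b i) (c i) : AO O L)).coeff a ≠ 0 :=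
                    ha
                  rw [Finset.prod_empty, one_def, coeff_single, Finsupp.single_eq_of_ne ha0] at h7
                  exact h7 rfl
              | insert i s hi ih =>
                intro hj a ha
                have h7 : (∏ i ∈ insert i s, (1 - single (b i) (c i) : AO O L)).coeff a ≠ 0 := ha
                rw [Finset.prod_insert hi, sub_mul, one_mul, coeff_sub, Finsupp.sub_apply,
                  coeff_single_mul_apply] at h7
                have hjs : j ∉ s := fun h => hj (Finset.mem_insert_of_mem h)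
                have hij : i ≠ j := fun h => hj (h ▸ Finset.mem_insert_self i s)
                by_cases h8 : (∏ i ∈ s, (1 - single (b i) (c i) : AO O L)).coeff a = 0
                · have h9 : (∏ i ∈ s, (1 - single (b i) (c i) : AO O L)).coeff (-b i + a) ≠ 0 := by
                    intro h10
                    rw [h8, h10, mul_zero, sub_zero] at h7
                    exact h7 rfl
                  have h10 := ih hjs _ h9
                  rw [map_add, map_neg] at h10
                  have h11 : k j (b i) = 0 := by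
                    rw [hk, hp, if_neg hij]
                  rw [h11] at h10
                  omega
                · exact ih hjs a h8
            rw [hH]
            exact h6 _ (Finset.notMem_erase j _)
          by_contra h6
          have h7 := h5 (b j) h6
          rw [hk, hp, if_pos rfl] at h7
          omega
        rw [hHk, zero_sub]
        exact neg_ne_zero.mpr (hc j)
      · intro a ha
        have h3 : W * (single (-b j) 1 * ∏ i, (1 - single (b i) (c i))) = single (-b j) 1 * Q := by
          rw [hW]
          ring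
        rw [h3] at ha
        have h4 : (single (-b j) 1 * Q).coeff a ≠ 0 := ha
        rw [coeff_single_mul_apply, one_mul, neg_neg] at h4
        have h5 := hbin _ h4 (p j)
        rw [map_add] at h5
        simp only [Pi.add_apply, hp, if_true] at h5
        rw [AddMonoidHom.neg_apply, hk]
        omega
    have h3 := h1 a ha
    have h4 := h2 a ha
    rw [AddMonoidHom.neg_apply] at h4
    omega
  refine ⟨W.coeff 0, ?_⟩
  have hWc : W = cst (W.coeff 0) := by
    apply AddMonoidAlgebra.ext
    apply Finsupp.ext
    intro a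
    rw [cst, coeff_single]
    by_cases ha : a = 0
    · rw [ha, Finsupp.single_eq_same]
    · rw [Finsupp.single_eq_of_ne ha]
      by_contra h5
      apply ha
      obtain ⟨n, hn, hna⟩ := hspan a
      rw [subset_sum phi b p hp hn hna]
      apply Finset.sum_eq_zero
      intro i _
      rw [← hk i a, hmain i a h5, zero_smul]
  rw [hW]
  conv_lhs => rw [hWc]
  ring

end Pool.Agent.B5.H52.Div
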